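import Pool.Agent.PolyMax.AffFull
import Pool.Agent.PolyMax.Factor

set_option autoImplicit false

/-!
# Polynomial multiple averages of commuting affine maps and of their factors

All slots carry arbitrary bounded measurable functions, all integer polynomials are allowed.

`X` is a compact Hausdorff abelian group with its Haar probability measure, the maps
`T_i x = A_i x + b_i` commute with each other, and `(Y, nu, S_1, ..., S_d)` is a factor of
`(X, mu, T_1, ..., T_d)` (for instance `Y = X`).  The averages
`(2N+1)⁻¹ ∑_{|n| ≤ N} ∏_j f_j (S_1^{P_{1,j}(n)} ⋯ S_d^{P_{d,j}(n)} y)` converge almost everywhere.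

Commuting generalised Bernoulli shifts on `A^I` with a standard probability space `A` are
factors of the group `X = (ℝ/ℤ)^I` with the automorphisms that permute the coordinates.

The proof uses Bourgain's `L²` maximal inequality for polynomial averages (`Pool.PolyMax.maximal`).
-/

open MeasureTheory Filter Topology Finset
open scoped ENNReal

namespace Pool.Agent.Results.MP_4d8f14_an.AffineCommutingBounded

universe u v

theorem result :
    ∀ (X : Type u) [AddCommGroup X] [TopologicalSpace X] [IsTopologicalAddGroup X]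
      [CompactSpace X] [T2Space X] [MeasurableSpace X] [BorelSpace X]
      (mu : Measure X) [mu.IsAddHaarMeasure] [IsProbabilityMeasure mu]
      (d m : ℕ) (A : Fin d → X ≃ₜ+ X) (b : Fin d → X) (T : Fin d → Equiv.Perm X),
      (∀ i x, T i x = A i x + b i) → (∀ i k, Commute (T i) (T k)) →
      ∀ (Y : Type v) [MeasurableSpace Y] (nu : Measure Y) (S : Fin d → Equiv.Perm Y) (p : X → Y),
      (∀ i, MeasurePreserving (S i) nu nu) → (∀ i, MeasurePreserving (S i).symm nu nu) →
      MeasurePreserving p mu nu → (∀ i, ∀ᵐ x ∂mu, p (T i x) = S i (p x)) →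
      ∀ (P : Fin d → Fin m → Polynomial ℤ) (f : Fin m → Y → ℂ), (∀ j, MemLp (f j) ∞ nu) →
      ∀ᵐ y ∂nu, ∃ L : ℂ, Tendsto (fun N : ℕ => ((2 * N + 1 : ℕ) : ℂ)⁻¹ *
        ∑ n ∈ Finset.Icc (-(N : ℤ)) (N : ℤ), ∏ j : Fin m,
          f j ((List.ofFn fun i : Fin d => S i ^ (P i j).eval n).prod y)) atTop (𝓝 L) := by
  intro X _ _ _ _ _ _ _ mu _ _ d m A b T hT hc Y _ nu S p hS hS' hp hint P f hf
  have hTm : ∀ i, MeasurePreserving (T i) mu mu := fun i =>
    Pool.Lib.AffMeas.closure_preserving mu A b T hT (Subgroup.subset_closure ⟨i, rfl⟩)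
  have hTs : ∀ i, MeasurePreserving (T i).symm mu mu := fun i =>
    Pool.Lib.AffMeas.closure_preserving mu A b T hT
      (Subgroup.inv_mem _ (Subgroup.subset_closure ⟨i, rfl⟩))
  exact Pool.PolyMax.factor_conv mu nu d m T hTm hTs S hS hS' p hp hint P
    (fun g hg => Pool.PolyMax.aff_full mu d m A b T hT hc P g hg) f hf

end Pool.Agent.Results.MP_4d8f14_an.AffineCommutingBounded
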