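import Pool.Agent.NilAff.Fin
import Pool.Agent.PolyMax.AffFull
import Pool.Agent.Lib.RiemannInt

set_option autoImplicit false

/-!
# Nilpotent groups of affine maps of compact abelian groups

Let `X` be any compact Hausdorff abelian group with Haar probability measure `μ`, and let
`T i x = A i x + b i` (`i < d`) be affine maps (`A i` continuous automorphisms of `X`) which generate
a nilpotent group.  Then for all integer polynomials the averages over `n ∈ [-N, N]` of
`∏ j, f j (g_j(n) x)`, `g_j(n) = T_1 ^ P_1j(n) ⋯ T_d ^ P_dj(n)`, converge for almost every `x`, for all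
`m` and all bounded almost everywhere continuous functions `f j`; `f j` may be any function in
`L^∞` whenever `g_j(n) = S_1 ^ Q_1(n) ⋯ S_l ^ Q_l(n)` with commuting `S_i` and polynomials `Q_i`.
-/

open MeasureTheory Filter Topology Finset
open scoped ENNReal NNReal

namespace Pool.Agent.Results.MP_4d8f14_an.AffineNilpotent

open Pool.Lib.Erg Pool.Lib.AffAlg Pool.Lib.AffMeas Pool.Agent.NilAff

universe u

variable {X : Type u} [AddCommGroup X] [TopologicalSpace X] [IsTopologicalAddGroup X]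
  [CompactSpace X] [T2Space X] [MeasurableSpace X] [BorelSpace X]

lemma bounded_of_continuous {φ : X → ℂ} (hφ : Continuous φ) : ∃ C : ℝ, ∀ x, ‖φ x‖ ≤ C := by
  obtain ⟨C, hC⟩ := isCompact_univ.exists_bound_of_continuousOn hφ.continuousOn
  exact ⟨C, fun x => hC x (Set.mem_univ x)⟩

/-- Continuous functions in all slots. -/
theorem continuous_case (μ : Measure X) [μ.IsAddHaarMeasure] [IsProbabilityMeasure μ]
    {d m : ℕ} (A : Fin d → X ≃ₜ+ X) (b : Fin d → X)
    (T : Fin d → Equiv.Perm X) (hT : ∀ i x, T i x = A i x + b i)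
    (hnil : Group.IsNilpotent (Subgroup.closure (Set.range T))) (P : Fin d → Fin m → Polynomial ℤ)
    (f : Fin m → X → ℂ) (hf : ∀ j, Continuous (f j)) :
    ∀ᵐ x ∂μ, ∃ L, Tendsto (avg fun n : ℕ => ∏ j, f j (gel T P j (n : ℤ) x)) atTop (𝓝 L) := by
  haveI := hnil
  apply multi_closure2 (μ := μ) (fun j n => ⇑(gel T P j (n : ℤ)))
    (fun j n => closure_preserving μ A b T hT (gel_mem T P j _)) {φ | IsTrig φ}
    (fun φ hφ => ⟨hφ.cont.aestronglyMeasurable, bounded_of_continuous hφ.cont⟩)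
  · intro g hg ε hε
    exact trig_dense_L1 μ (hg.integrable (by simp)) hε
  · intro φ hφ
    exact trig_conv' μ A b T hT P φ hφ
  · intro j
    left
    intro ε hε
    exact trig_dense (hf j) hε

/-- One sided version. -/
theorem one_sided (μ : Measure X) [μ.IsAddHaarMeasure] [IsProbabilityMeasure μ]
    {d m : ℕ} (A : Fin d → X ≃ₜ+ X) (b : Fin d → X)
    (T : Fin d → Equiv.Perm X) (hT : ∀ i x, T i x = A i x + b i)
    (hnil : Group.IsNilpotent (Subgroup.closure (Set.range T))) (P : Fin d → Fin m → Polynomial ℤ)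
    (f : Fin m → X → ℂ)
    (hf : ∀ j, ((∃ C : ℝ, ∀ x, ‖f j x‖ ≤ C) ∧ ∀ᵐ x ∂μ, ContinuousAt (f j) x) ∨
      (MemLp (f j) ∞ μ ∧ ∃ (l : ℕ) (S : Fin l → Equiv.Perm X) (Q : Fin l → Polynomial ℤ),
        (∀ i, MeasurePreserving (S i) μ μ ∧ MeasurePreserving (S i).symm μ μ) ∧
        (∀ i k, Commute (S i) (S k)) ∧
        ∀ n : ℕ, (List.ofFn fun i : Fin d => T i ^ (P i j).eval (n : ℤ)).prod =
          (List.ofFn fun i : Fin l => S i ^ (Q i).eval (n : ℤ)).prod)) :
    ∀ᵐ x ∂μ, ∃ L : ℂ, Tendsto (avg fun n : ℕ =>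
      ∏ j : Fin m, f j ((List.ofFn fun i : Fin d => T i ^ (P i j).eval (n : ℤ)).prod x))
      atTop (𝓝 L) := by
  haveI := regular_of_haar μ
  apply multi_closure4 (μ := μ) (fun j n => ⇑(gel T P j (n : ℤ)))
    (fun j n => closure_preserving μ A b T hT (gel_mem T P j _)) {φ | Continuous φ}
    continuous_const
    (fun φ hφ => ⟨hφ.aestronglyMeasurable, bounded_of_continuous hφ⟩)
  · intro g hg ε hε
    obtain ⟨φ, hφ, h⟩ := Pool.PolyMax.trig_dense_L2 μ hg hε
    exact ⟨φ, hφ.cont, h⟩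
  · intro φ hφ
    exact continuous_case μ A b T hT hnil P φ hφ
  · intro j
    rcases hf j with ⟨⟨C, hC⟩, h⟩ | ⟨h, l, S, Q, hS, hc, hSQ⟩
    · left
      intro ε hε
      obtain ⟨φ, v, hφ, hv, h1, h2⟩ := squeeze_of_ae_continuous μ (f j) C hC h ε hε
      exact ⟨φ, hφ, v, Complex.continuous_ofReal.comp hv, h1, h2⟩
    · right
      refine ⟨h, ?_⟩
      obtain ⟨C, hC⟩ := Pool.PolyMax.one_sided.{u} (Finset.univ.sup fun i : Fin l => (Q i).natDegree)
      refine ⟨C, fun v hv => ?_⟩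
      have h1 := hC μ l S (fun i => (hS i).1) (fun i => (hS i).2) hc Q
        (fun i => Finset.le_sup (f := fun i : Fin l => (Q i).natDegree) (Finset.mem_univ i)) v hv
      have e : ∀ (n : ℕ) x, gel T P j (n : ℤ) x = Pool.PolyMax.gel S Q (n : ℤ) x := by
        intro n x
        show (List.ofFn fun i : Fin d => T i ^ (P i j).eval (n : ℤ)).prod x = _
        rw [hSQ n]
        rfl
      simp_rw [e]
      exact h1

/-- **Main theorem.** -/
theorem result {X : Type u} [AddCommGroup X] [TopologicalSpace X] [IsTopologicalAddGroup X]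
    [CompactSpace X] [T2Space X] [MeasurableSpace X] [BorelSpace X]
    (μ : Measure X) [μ.IsAddHaarMeasure] [IsProbabilityMeasure μ]
    (d m : ℕ) (A : Fin d → X ≃ₜ+ X) (b : Fin d → X)
    (T : Fin d → Equiv.Perm X) (hT : ∀ i x, T i x = A i x + b i)
    (hnil : Group.IsNilpotent (Subgroup.closure (Set.range T)))
    (P : Fin d → Fin m → Polynomial ℤ) (f : Fin m → X → ℂ)
    (hf : ∀ j, ((∃ C : ℝ, ∀ x, ‖f j x‖ ≤ C) ∧ ∀ᵐ x ∂μ, ContinuousAt (f j) x) ∨
      (MemLp (f j) ∞ μ ∧ ∃ (l : ℕ) (S : Fin l → Equiv.Perm X) (Q : Fin l → Polynomial ℤ),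
        (∀ i, MeasurePreserving (S i) μ μ ∧ MeasurePreserving (S i).symm μ μ) ∧
        (∀ i k, Commute (S i) (S k)) ∧
        ∀ n : ℤ, (List.ofFn fun i : Fin d => T i ^ (P i j).eval n).prod =
          (List.ofFn fun i : Fin l => S i ^ (Q i).eval n).prod)) :
    ∀ᵐ x ∂μ, ∃ L : ℂ, Tendsto
      (fun N : ℕ => ((2 * N + 1 : ℕ) : ℂ)⁻¹ *
        ∑ n ∈ Finset.Icc (-(N : ℤ)) (N : ℤ), ∏ j : Fin m,
          f j ((List.ofFn fun i : Fin d => T i ^ (P i j).eval n).prod x))
      atTop (𝓝 L) := by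
  have h1 := one_sided μ A b T hT hnil P f (by
    intro j
    rcases hf j with h | ⟨h, l, S, Q, hS, hc, hSQ⟩
    · exact Or.inl h
    · exact Or.inr ⟨h, l, S, Q, hS, hc, fun n => hSQ n⟩)
  have h2 := one_sided μ A b T hT hnil (fun i j => (P i j).comp (-Polynomial.X)) f (by
    intro j
    rcases hf j with h | ⟨h, l, S, Q, hS, hc, hSQ⟩
    · exact Or.inl h
    · refine Or.inr ⟨h, l, S, fun i => (Q i).comp (-Polynomial.X), hS, hc, fun n => ?_⟩
      simp only [Polynomial.eval_comp, Polynomial.eval_neg, Polynomial.eval_X]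
      exact hSQ (-(n : ℤ)))
  filter_upwards [h1, h2] with x ⟨L1, hL1⟩ ⟨L2, hL2⟩
  refine ⟨(L1 + L2) / 2, ?_⟩
  apply two_sided (fun n : ℤ => ∏ j : Fin m,
    f j ((List.ofFn fun i : Fin d => T i ^ (P i j).eval n).prod x)) L1 L2 hL1
  simpa only [Polynomial.eval_comp, Polynomial.eval_neg, Polynomial.eval_X] using hL2

end Pool.Agent.Results.MP_4d8f14_an.AffineNilpotent
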