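import Pool.Agent.AEW.Fin

set_option autoImplicit false

/-!
# Almost all times

`φ_0, …, φ_d` are arbitrary jointly measurable, measure preserving actions of `ℝ^(k+1)` on a
probability space, without any relation between them; they are all followed at one common vector of
times `t ∈ ℝ^(k+1)`, the function `f_j` being moved by `φ_j (t_0 Q_{j,0}(n), …, t_k Q_{j,k}(n))`,
where in each row `i` the nonzero polynomials `Q_{j,i}` have different degrees.  In addition there
are functions `F_l` moved by polynomial sequences of an arbitrary nilpotent group of measure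
preserving maps.  For all `t` outside of a null set (a union over the degree `D` of sets of
Hausdorff dimension less than `k+1`) the averages are asymptotically the averages of the `F_l`-part
times the conditional expectations of the `f_j`.

The proof is in `Pool/Agent/AEW` (with general parts in `AET`, `AEV`).  Main steps.

* `SqCorr`, `BoxWin`, `Block`, `PolySum`: the correlation of `f (φ (t p) x)` and `f (φ (t q) x)`
  over a very short interval of times `t_i`, of length `η = 1/(Q² N^e)`; its square is an integral
  over the difference of two times, in which the window may be frozen along a block of `q`s, and the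
  sum over the block has a small second moment by the decay of `f` (a coboundary of direction `i`).
* `Second`, `Box`: the second moment of the averages, for arbitrary bounded weights which vary
  slowly in `t_i`; so the functions of smaller degree in row `i` are weights.
* `Exc`: Borel–Cantelli along a polynomial sequence of `N`, and the dimension of the exceptional set.
* `Dens`, `Dc`, `Red`: approximation (with the `L²` maximal inequality for polynomial orbits of
  nilpotent groups), and induction on the number of nonzero polynomials.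
-/

open MeasureTheory Filter Topology Finset
open scoped ENNReal

namespace Pool.Agent.Results.MP_4d8f14_an.AlmostAllTimes

universe u

theorem result :
    ∀ (X : Type u) [MeasurableSpace X] [MeasurableSpace.CountablyGenerated X]
      (μ : Measure X) [IsProbabilityMeasure μ]
      -- maps which generate a nilpotent group
      (r : ℕ) (T : Fin r → Equiv.Perm X),
      (∀ i, MeasurePreserving (T i) μ μ) → (∀ i, Measurable (T i).symm) →
      Group.IsNilpotent (Subgroup.closure (Set.range T)) →
      -- measurable measure preserving actions of `ℝ^(k+1)`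
      ∀ (d k : ℕ) (φ : Fin (d + 1) → (Fin (k + 1) → ℝ) → X → X),
      (∀ j, Measurable (Function.uncurry (φ j))) → (∀ j s t x, φ j (s + t) x = φ j s (φ j t x)) →
      (∀ j x, φ j 0 x = x) → (∀ j t, MeasurePreserving (φ j t) μ μ) →
      -- exceptional times
      ∃ E : ℕ → Set (Fin (k + 1) → ℝ), (∀ D, dimH (E D) < (k : ℝ≥0∞) + 1) ∧
        volume (⋃ D, E D) = 0 ∧
        ∀ (D : ℕ), ∀ t ∉ E D, ∀ Q : Fin (d + 1) → Fin (k + 1) → Polynomial ℤ,
        (∀ j i, Q j i = 0 ∨ 1 ≤ (Q j i).natDegree) → (∀ j i, (Q j i).natDegree ≤ D) →
        (∀ i j j', j ≠ j' → Q j i ≠ 0 → Q j' i ≠ 0 →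
          (Q j i).natDegree ≠ (Q j' i).natDegree) →
        ∀ (m : ℕ) (P : Fin m → Fin r → Polynomial ℤ) (F : Fin m → X → ℂ)
          (f : Fin (d + 1) → X → ℂ), (∀ l, MemLp (F l) ∞ μ) → (∀ j, MemLp (f j) ∞ μ) →
          ∀ᵐ x ∂μ,
            Tendsto (fun N : ℕ => ((2 * N + 1 : ℕ) : ℂ)⁻¹ * ∑ n ∈ Finset.Icc (-(N : ℤ)) (N : ℤ),
                (∏ l, F l ((List.ofFn fun i => T i ^ (P l i).eval n).prod x)) *
                  ∏ j, f j (φ j (fun i => t i * ((Q j i).eval n : ℤ)) x)
              - (((2 * N + 1 : ℕ) : ℂ)⁻¹ * ∑ n ∈ Finset.Icc (-(N : ℤ)) (N : ℤ),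
                ∏ l, F l ((List.ofFn fun i => T i ^ (P l i).eval n).prod x)) *
                ∏ j, (μ[f j | ⨅ v : Fin (k + 1) → ℝ, MeasurableSpace.invariants
                  (φ j (fun i => if Q j i = 0 then 0 else v i))]) x)
              atTop (𝓝 0) ∧
            (m ≤ 1 → ∃ L : ℂ, Tendsto (fun N : ℕ =>
              ((2 * N + 1 : ℕ) : ℂ)⁻¹ * ∑ n ∈ Finset.Icc (-(N : ℤ)) (N : ℤ),
                (∏ l, F l ((List.ofFn fun i => T i ^ (P l i).eval n).prod x)) *
                  ∏ j, f j (φ j (fun i => t i * ((Q j i).eval n : ℤ)) x))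
              atTop (𝓝 L)) := by
  intro X _ _ μ _ r T hT hT' hnil d k φ hm hadd h0 hmp
  have hφ : ∀ j, Pool.AEV.IsFlow μ (φ j) := fun j => ⟨hm j, hadd j, h0 j, hmp j⟩
  obtain ⟨E, hE, hvol, hmain⟩ := Pool.AEW.main_final T hT hT' hnil hφ
  refine ⟨E, hE, hvol, fun D t ht Q hQ hQD hrow m P F f hF hf => ?_⟩
  filter_upwards [hmain D t ht Q hQ hQD hrow m P F f hF hf] with x hx
  simp only [Pool.AET.avC_eq] at hx
  exact hx

end Pool.Agent.Results.MP_4d8f14_an.AlmostAllTimes
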