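import Pool.Agent.DRT.Zorn

set_option autoImplicit false

/-!
# A return times theorem on the diagonal

`S`, `T` are commuting invertible measure preserving maps of a probability space.  There is a
factor `m`, which contains any given factor on which all averages of pairs converge, such that

* the averages of `f(S^n x) g(T^n x)` converge almost everywhere for all bounded `f`, `g` as soon
  as one of `f`, `g` is `m`-measurable (the other one is arbitrary);
* `S` and `T` are both weakly mixing relative to `m`;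
* `m` contains every factor on which `S` or `T` is distal.

The parts of the proof are in `Pool/Agent/DRT`: a weight lemma (a quantitative form of the argument
of Bourgain, Furstenberg, Katznelson and Ornstein, in which orthogonality of the weights is replaced
by small oscillation of their correlations), relatively compact functions, and Zorn's lemma.
-/

open MeasureTheory Filter Topology
open scoped ENNReal

namespace Pool.Agent.Results.MP_4d8f14_an.DiagonalReturnTimes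

/-- `m` is a sub-σ-algebra, invariant under `S`, `T` and their inverses, such that the averages
of `f(S^n x) g(T^n x)` converge almost everywhere for all bounded `m`-measurable `f`, `g`.
(The trivial σ-algebra `⊥` is always good.) -/
def Good {X : Type*} (m : MeasurableSpace X) [mX : MeasurableSpace X] (μ : Measure X)
    (S T : Equiv.Perm X) : Prop :=
  m ≤ mX ∧
  (∀ B : Set X, MeasurableSet[m] B → MeasurableSet[m] (S ⁻¹' B) ∧ MeasurableSet[m] (S '' B) ∧
    MeasurableSet[m] (T ⁻¹' B) ∧ MeasurableSet[m] (T '' B)) ∧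
  ∀ f g : X → ℂ, MemLp f ∞ μ → MemLp g ∞ μ → AEStronglyMeasurable[m] f μ →
    AEStronglyMeasurable[m] g μ → ∀ᵐ x ∂μ, ∃ l : ℂ, Tendsto (fun N : ℕ =>
      (2 * (N : ℂ) + 1)⁻¹ * ∑ n ∈ Finset.Icc (-(N : ℤ)) N, f ((S ^ n) x) * g ((T ^ n) x))
      atTop (𝓝 l)

/-- `R` is weakly mixing on the σ-algebra `m₁` relative to the smaller σ-algebra `m`. -/
def WeakMixing {X : Type*} (m m₁ : MeasurableSpace X) [mX : MeasurableSpace X] (μ : Measure X)
    (R : Equiv.Perm X) : Prop :=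
  ∀ f g : X → ℂ, MemLp f ∞ μ → MemLp g ∞ μ → AEStronglyMeasurable[m₁] f μ →
    AEStronglyMeasurable[m₁] g μ → μ[f | m] =ᵐ[μ] 0 →
    Tendsto (fun N : ℕ => (2 * (N : ℝ) + 1)⁻¹ * ∑ n ∈ Finset.Icc (-(N : ℤ)) N,
      ∫ x, ‖(μ[fun z => f ((R ^ n) z) * g z | m]) x‖ ^ 2 ∂μ) atTop (𝓝 0)

/-- `R` is distal on the `R`-invariant σ-algebra `m₁` (a factor for `R` alone): relative to no
smaller `R`-invariant σ-algebra is it weakly mixing on `m₁`. -/
def Distal {X : Type*} (m₁ : MeasurableSpace X) [mX : MeasurableSpace X] (μ : Measure X)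
    (R : Equiv.Perm X) : Prop :=
  m₁ ≤ mX ∧
  (∀ B : Set X, MeasurableSet[m₁] B → MeasurableSet[m₁] (R ⁻¹' B) ∧ MeasurableSet[m₁] (R '' B)) ∧
  ∀ m : MeasurableSpace X, m ≤ m₁ →
    (∀ B : Set X, MeasurableSet[m] B → MeasurableSet[m] (R ⁻¹' B) ∧ MeasurableSet[m] (R '' B)) →
    @WeakMixing X m m₁ mX μ R →
    ∀ B : Set X, MeasurableSet[m₁] B → ∃ B' : Set X, MeasurableSet[m] B' ∧ B =ᵐ[μ] B'

section aux

open scoped ComplexConjugate

variable {X : Type*} {m : MeasurableSpace X} [mX : MeasurableSpace X] {μ : Measure X}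

theorem repr_aux (m' : MeasurableSpace X) {f g : X → ℂ} (hf : MemLp f ∞ μ)
    (hg : Measurable[m'] g) (hfg : f =ᵐ[μ] g) :
    ∃ (C : ℝ) (f' : X → ℂ), 0 < C ∧ Measurable[m'] f' ∧ DRT.Bd f' ∧
      f =ᵐ[μ] fun x => (C : ℂ) * f' x := by
  obtain ⟨C, hC⟩ : ∃ C : ℝ, ∀ᵐ x ∂μ, ‖f x‖ ≤ C := by
    have h := hf.2
    rw [eLpNorm_exponent_top] at h
    refine ⟨(eLpNormEssSup f μ).toReal, ?_⟩
    filter_upwards [ae_le_eLpNormEssSup (f := f) (μ := μ)] with x hx
    have := ENNReal.toReal_mono h.ne hx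
    simpa using this
  have hC1 : 0 < |C| + 1 := by positivity
  refine ⟨|C| + 1, fun x => if ‖g x‖ ≤ |C| + 1 then ((|C| + 1 : ℝ) : ℂ)⁻¹ * g x else 0, hC1,
    ?_, ?_, ?_⟩
  · refine Measurable.ite ?_ (measurable_const.mul hg) measurable_const
    exact measurableSet_le hg.norm measurable_const
  · intro x
    by_cases h : ‖g x‖ ≤ |C| + 1
    · simp only [h, if_true]
      rw [norm_mul, norm_inv, Complex.norm_real, Real.norm_of_nonneg hC1.le, inv_mul_le_iff₀ hC1,
        mul_one]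
      exact h
    · simp only [h, if_false, norm_zero]
      exact zero_le_one
  · filter_upwards [hC, hfg] with x hx hx'
    have h : ‖g x‖ ≤ |C| + 1 := by
      rw [← hx']
      have := le_abs_self C
      linarith
    simp only [h, if_true]
    rw [← mul_assoc, mul_inv_cancel₀ (by exact_mod_cast hC1.ne'), one_mul]
    exact hx'

/-- bounded representatives -/
theorem repr_of_memLp {f : X → ℂ} (hf : MemLp f ∞ μ) :
    ∃ (C : ℝ) (f' : X → ℂ), 0 < C ∧ Measurable f' ∧ DRT.Bd f' ∧ f =ᵐ[μ] fun x => (C : ℂ) * f' x :=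
  repr_aux mX hf (hf.1.stronglyMeasurable_mk).measurable hf.1.ae_eq_mk

theorem repr_of_memLp' {f : X → ℂ} (hf : MemLp f ∞ μ)
    (hfm : AEStronglyMeasurable[m] f μ) :
    ∃ (C : ℝ) (f' : X → ℂ), 0 < C ∧ Measurable[m] f' ∧ DRT.Bd f' ∧
      f =ᵐ[μ] fun x => (C : ℂ) * f' x :=
  repr_aux m hf (hfm.stronglyMeasurable_mk).measurable hfm.ae_eq_mk

variable [IsProbabilityMeasure μ] {S T : Equiv.Perm X}

/-- passage from functions bounded by one to essentially bounded functions -/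
theorem cv_scale (hS : DRT.MP μ S) (hT : DRT.MP μ T) {f g f' g' : X → ℂ} {C D : ℝ}
    (hf : f =ᵐ[μ] fun x => (C : ℂ) * f' x) (hg : g =ᵐ[μ] fun x => (D : ℂ) * g' x)
    (h : ∀ᵐ x ∂μ, DRT.CV fun N => DRT.AN S T f' g' N x) :
    ∀ᵐ x ∂μ, ∃ l : ℂ, Tendsto (fun N : ℕ =>
      (2 * (N : ℂ) + 1)⁻¹ * ∑ n ∈ Finset.Icc (-(N : ℤ)) N, f ((S ^ n) x) * g ((T ^ n) x))
      atTop (𝓝 l) := by
  filter_upwards [h, DRT.AN_ae_congr hS hT hf hg] with x hx hx'
  obtain ⟨l, hl⟩ := hx
  refine ⟨(C * D : ℂ) * l, ?_⟩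
  refine (hl.const_mul (C * D : ℂ)).congr fun N => ?_
  rw [← DRT.av_eq]
  have h1 := hx' N
  unfold DRT.AN at h1 ⊢
  rw [h1, ← DRT.av_mul_left]
  apply DRT.av_congr
  intro n _
  ring

omit [IsProbabilityMeasure μ] in
theorem good_to (hG : Good m μ S T) : DRT.Good m μ S T := by
  obtain ⟨h1, h2, h3⟩ := hG
  have him : ∀ R : Equiv.Perm X, ∀ B : Set X, (R⁻¹ : Equiv.Perm X) ⁻¹' B = R '' B := by
    intro R B
    exact (R.image_eq_preimage_symm B).symm
  refine ⟨h1, ⟨fun B hB => (h2 B hB).1, fun B hB => ?_⟩,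
    ⟨fun B hB => (h2 B hB).2.2.1, fun B hB => ?_⟩, ?_⟩
  · rw [him]; exact (h2 B hB).2.1
  · rw [him]; exact (h2 B hB).2.2.2
  · intro f g hf hg hfb hgb
    have hf' : Measurable f := hf.mono h1 le_rfl
    have hg' : Measurable g := hg.mono h1 le_rfl
    have hmf : MemLp f ∞ μ := memLp_top_of_bound hf'.aestronglyMeasurable 1
      (Eventually.of_forall hfb)
    have hmg : MemLp g ∞ μ := memLp_top_of_bound hg'.aestronglyMeasurable 1
      (Eventually.of_forall hgb)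
    filter_upwards [h3 f g hmf hmg hf.stronglyMeasurable.aestronglyMeasurable
      hg.stronglyMeasurable.aestronglyMeasurable] with x hx
    obtain ⟨l, hl⟩ := hx
    refine ⟨l, hl.congr fun N => ?_⟩
    rw [← DRT.av_eq]
    rfl

theorem good_of (hS : DRT.MP μ S) (hT : DRT.MP μ T) (hG : DRT.Good m μ S T) :
    Good m μ S T := by
  have him : ∀ R : Equiv.Perm X, ∀ B : Set X, (R⁻¹ : Equiv.Perm X) ⁻¹' B = R '' B := by
    intro R B
    exact (R.image_eq_preimage_symm B).symm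
  refine ⟨hG.le, fun B hB => ⟨hG.invS.1 hB, ?_, hG.invT.1 hB, ?_⟩, ?_⟩
  · rw [← him]; exact hG.invS.2 hB
  · rw [← him]; exact hG.invT.2 hB
  · intro f g hf hg hfm hgm
    obtain ⟨C, f', -, hf'm, hf'b, hff'⟩ := repr_of_memLp' hf hfm
    obtain ⟨D, g', -, hg'm, hg'b, hgg'⟩ := repr_of_memLp' hg hgm
    exact cv_scale hS hT hff' hgg' (hG.cv f' g' hf'm hg'm hf'b hg'b)

/-- part (a) for essentially bounded functions -/
theorem partA (hm : m ≤ mX) (hS : DRT.MP μ S) (hT : DRT.MP μ T)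
    (h : ∀ f g : X → ℂ, Measurable[mX] f → Measurable[mX] g → DRT.Bd f → DRT.Bd g →
        (Measurable[m] f ∨ Measurable[m] g) → ∀ᵐ x ∂μ, DRT.CV fun N => DRT.AN S T f g N x)
    {f g : X → ℂ} (hf : MemLp f ∞ μ) (hg : MemLp g ∞ μ)
    (hfg : AEStronglyMeasurable[m] f μ ∨ AEStronglyMeasurable[m] g μ) :
    ∀ᵐ x ∂μ, ∃ l : ℂ, Tendsto (fun N : ℕ =>
      (2 * (N : ℂ) + 1)⁻¹ * ∑ n ∈ Finset.Icc (-(N : ℤ)) N, f ((S ^ n) x) * g ((T ^ n) x))
      atTop (𝓝 l) := by
  rcases hfg with hfm | hgm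
  · obtain ⟨C, f', -, hf'm, hf'b, hff'⟩ := repr_of_memLp' hf hfm
    obtain ⟨D, g', -, hg'm, hg'b, hgg'⟩ := repr_of_memLp hg
    exact cv_scale hS hT hff' hgg' (h f' g' (hf'm.mono hm le_rfl) hg'm hf'b hg'b (Or.inl hf'm))
  · obtain ⟨C, f', -, hf'm, hf'b, hff'⟩ := repr_of_memLp hf
    obtain ⟨D, g', -, hg'm, hg'b, hgg'⟩ := repr_of_memLp' hg hgm
    exact cv_scale hS hT hff' hgg' (h f' g' hf'm (hg'm.mono hm le_rfl) hf'b hg'b (Or.inr hg'm))

omit [IsProbabilityMeasure μ] in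
theorem mp_of {R : Equiv.Perm X} (hR : MeasurePreserving R μ μ) (hR' : Measurable R.symm) :
    DRT.MP μ R := by
  refine ⟨hR, hR', ?_⟩
  have hR'' : Measurable (R⁻¹ : Equiv.Perm X) := hR'
  have h1 : μ.map (R⁻¹ : Equiv.Perm X) = (μ.map R).map (R⁻¹ : Equiv.Perm X) := by
    rw [hR.map_eq]
  rw [h1, Measure.map_map hR'' hR.measurable]
  have h2 : ((R⁻¹ : Equiv.Perm X) : X → X) ∘ R = id := by
    funext x
    exact R.symm_apply_apply x
  rw [h2, Measure.map_id]

end aux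

section aux2

variable {X : Type*} {m m₁ : MeasurableSpace X} [mX : MeasurableSpace X] {μ : Measure X}

/-- weak mixing: passage from functions bounded by one to essentially bounded functions -/
theorem wm_of {R : Equiv.Perm X} (hR : DRT.MP μ R)
    (h : ∀ f g : X → ℂ, Measurable[m₁] f → Measurable[m₁] g → DRT.Bd f → DRT.Bd g →
      μ[f | m] =ᵐ[μ] 0 → Tendsto (fun N => DRT.av N fun n =>
        ∫ x, ‖(μ[fun z => f ((R ^ n) z) * g z | m]) x‖ ^ 2 ∂μ) atTop (𝓝 0)) :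
    @WeakMixing X m m₁ mX μ R := by
  intro f g hf hg hfm hgm h0
  obtain ⟨C, f', hC, hf'm, hf'b, hff'⟩ := @repr_of_memLp' X m₁ mX μ f hf hfm
  obtain ⟨D, g', hD, hg'm, hg'b, hgg'⟩ := @repr_of_memLp' X m₁ mX μ g hg hgm
  have hC0 : (C : ℂ) ≠ 0 := by exact_mod_cast hC.ne'
  have h0' : μ[f' | m] =ᵐ[μ] 0 := by
    have h1 : f' =ᵐ[μ] (C : ℂ)⁻¹ • f := by
      filter_upwards [hff'] with x hx
      rw [Pi.smul_apply, hx, smul_eq_mul, inv_mul_cancel_left₀ hC0]
    refine (condExp_congr_ae h1).trans ((condExp_smul _ _ _).trans ?_)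
    filter_upwards [h0] with x hx
    rw [Pi.smul_apply, hx]
    simp
  have h1 := (h f' g' hf'm hg'm hf'b hg'b h0').const_mul ((C * D) ^ 2)
  rw [mul_zero] at h1
  refine h1.congr fun N => ?_
  rw [← DRT.av_eq_real, ← smul_eq_mul, ← DRT.av_smul]
  apply DRT.av_congr
  intro n _
  rw [smul_eq_mul, ← integral_const_mul]
  apply integral_congr_ae
  have h2 : (fun z => f ((R ^ n) z) * g z) =ᵐ[μ]
      ((C * D : ℝ) : ℂ) • fun z => f' ((R ^ n) z) * g' z := by
    have h3 := (hR.zpow n).quasiMeasurePreserving.ae_eq_comp hff'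
    filter_upwards [h3, hgg'] with x hx hx'
    simp only [Function.comp_apply] at hx
    rw [Pi.smul_apply, hx, hx', smul_eq_mul]
    push_cast
    ring
  filter_upwards [(condExp_congr_ae h2).trans (condExp_smul _ _ _)] with x hx
  rw [hx, Pi.smul_apply, norm_smul, Complex.norm_real, Real.norm_of_nonneg (by positivity)]
  ring

omit mX in
theorem image_eq (R : Equiv.Perm X) (B : Set X) : (R⁻¹ : Equiv.Perm X) ⁻¹' B = R '' B :=
  (R.image_eq_preimage_symm B).symm

end aux2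

section aux3

variable {X : Type*} {m₁ : MeasurableSpace X} [mX : MeasurableSpace X] {μ : Measure X}

theorem distal_to {R : Equiv.Perm X} (hR : DRT.MP μ R) (hD : Distal m₁ μ R) :
    DRT.DistF m₁ μ R := by
  obtain ⟨h1, h2, h3⟩ := hD
  refine ⟨h1, ⟨fun B hB => (h2 B hB).1, fun B hB => ?_⟩, ?_⟩
  · rw [image_eq]; exact (h2 B hB).2
  · intro m hm hI hwm
    refine h3 m hm (fun B hB => ⟨hI.1 hB, ?_⟩) (@wm_of X m m₁ mX μ R hR hwm)
    rw [← image_eq]
    exact hI.2 hB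

end aux3

/-- **The return times theorem on the diagonal.** -/
theorem result {X : Type*} [mX : MeasurableSpace X] (μ : Measure X) [IsProbabilityMeasure μ]
    (S T : Equiv.Perm X) (hS : MeasurePreserving S μ μ) (hS' : Measurable S.symm)
    (hT : MeasurePreserving T μ μ) (hT' : Measurable T.symm) (hST : ∀ x, S (T x) = T (S x))
    (m₀ : MeasurableSpace X) (h₀ : @Good X m₀ mX μ S T) :
    ∃ m : MeasurableSpace X, m₀ ≤ m ∧ @Good X m mX μ S T ∧
      (∀ f g : X → ℂ, MemLp f ∞ μ → MemLp g ∞ μ →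
        (AEStronglyMeasurable[m] f μ ∨ AEStronglyMeasurable[m] g μ) →
        ∀ᵐ x ∂μ, ∃ l : ℂ, Tendsto (fun N : ℕ =>
          (2 * (N : ℂ) + 1)⁻¹ * ∑ n ∈ Finset.Icc (-(N : ℤ)) N, f ((S ^ n) x) * g ((T ^ n) x))
          atTop (𝓝 l)) ∧
      ∀ R : Equiv.Perm X, (R = S ∨ R = T) → @WeakMixing X m mX mX μ R ∧
        ∀ m₁ : MeasurableSpace X, @Distal X m₁ mX μ R → m₁ ≤ m := by
  have hSp := @mp_of X mX μ S hS hS'
  have hTp := @mp_of X mX μ T hT hT'
  have hc : Commute S T := Equiv.ext hST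
  obtain ⟨m, h1, h2, h3, h4, h5, h6⟩ :=
    @DRT.main1 X m₀ mX μ _ S T hSp hTp hc (@good_to X m₀ mX μ S T h₀)
  refine ⟨m, h1, @good_of X m mX μ _ S T hSp hTp h2, ?_, ?_⟩
  · intro f g hf hg hfg
    exact @partA X m mX μ _ S T (@DRT.Good.le X m mX μ S T h2) hSp hTp h3 f g hf hg hfg
  · rintro R (rfl | rfl)
    · exact ⟨@wm_of X m mX mX μ R hSp h4,
        fun m₁ hD => h6 m₁ (Or.inl (@distal_to X m₁ mX μ R hSp hD))⟩
    · exact ⟨@wm_of X m mX mX μ R hTp h5,
        fun m₁ hD => h6 m₁ (Or.inr (@distal_to X m₁ mX μ R hTp hD))⟩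

end Pool.Agent.Results.MP_4d8f14_an.DiagonalReturnTimes
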