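import Pool.Agent.Gauss4d.NilFinal
import Pool.Agent.PolyMax.Factor

set_option autoImplicit false

/-!
# Polynomial multiple averages for Gaussian actions of nilpotent groups

`X : H → Ω → ℝ` is a centred Gaussian field indexed by a real inner product space `H`, with covariance
`E (X h * X k) = ⟪h, k⟫` (structure `Pool.Gauss4d.GField`), which generates the σ-algebra of `Ω` modulo
null sets.  `T_1, ..., T_d` are invertible measure preserving maps of `Ω` with `X h ∘ T_i = X (U_i h)` a.e.
for isometries `U_i` of `H` (Gaussian automorphisms; the `U_i` are arbitrary, so every spectral type is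
allowed), and `(Y, ν, W)` is any factor of `(Ω, P, T)`, for example `Y = Ω`.

The group generated by the `T_i` is nilpotent, of any step.  The `P_ij` are arbitrary polynomials with
integer coefficients.

Then for all bounded measurable functions `f_1, ..., f_m` on `Y` the averages of
`∏_j f_j (W_1^{P_1j(n)} ⋯ W_d^{P_dj(n)} y)` over `|n| ≤ N` converge for almost every `y`: the problem is
answered positively, without further restriction, for Gaussian actions and their factors.

Idea (`Pool/Agent/Gauss4d`): for `f_j = exp (i X (h_j))` the multiple average is obtained from a *single*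
function average on a product of independent copies of `Ω`, by a linear change of variables and
integration over the auxiliary copies; further independent copies compensate the correlations
`⟪V_i(n) h_i, V_j(n) h_j⟫`.  The action on the product of the copies is again an action of a nilpotent
group along a polynomial sequence.  Almost everywhere convergence and the maximal inequality for *one*
function along polynomial sequences of nilpotent groups (of any step) are proved in `Pool/Agent/Nil`.
-/

open MeasureTheory Filter Topology
open scoped ENNReal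

namespace Pool.Agent.Results.MP_4d8f14_an.GaussianActions

open Pool.Gauss4d

universe u v w

theorem result
    -- a Gaussian system
    {Ω : Type u} [MeasurableSpace Ω] (P : Measure Ω) [IsProbabilityMeasure P]
    {H : Type v} [NormedAddCommGroup H] [InnerProductSpace ℝ H] (X : H → Ω → ℝ)
    (hX : GField P X)
    (hgen : ∀ A, MeasurableSet A → ∃ B,
      MeasurableSet[⨆ h, MeasurableSpace.comap (X h) inferInstance] B ∧ A =ᵐ[P] B)
    (d : ℕ) (T : Fin d → Equiv.Perm Ω) (U : Fin d → H ≃ₗᵢ[ℝ] H)
    (hT : ∀ i, MeasurePreserving (T i) P P) (hT' : ∀ i, MeasurePreserving (T i).symm P P)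
    (hTU : ∀ i h, ∀ᵐ ω ∂P, X h (T i ω) = X (U i h) ω)
    -- the group generated by the `T i` is nilpotent
    (hnil : Group.IsNilpotent (Subgroup.closure (Set.range T)))
    -- the polynomials
    (m : ℕ) (R : Fin d → Fin m → Polynomial ℤ)
    -- a factor of the Gaussian system
    {Y : Type w} [MeasurableSpace Y] (ν : Measure Y) (W : Fin d → Equiv.Perm Y)
    (hW : ∀ i, MeasurePreserving (W i) ν ν) (hW' : ∀ i, MeasurePreserving (W i).symm ν ν)
    (p : Ω → Y) (hp : MeasurePreserving p P ν) (hpT : ∀ i, ∀ᵐ ω ∂P, p (T i ω) = W i (p ω))
    (f : Fin m → Y → ℂ) (hf : ∀ j, MemLp (f j) ∞ ν) :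
    ∀ᵐ y ∂ν, ∃ L : ℂ, Tendsto (fun N : ℕ => ((2 * N + 1 : ℕ) : ℂ)⁻¹ *
      ∑ n ∈ Finset.Icc (-(N : ℤ)) (N : ℤ), ∏ j : Fin m,
        f j ((List.ofFn fun i : Fin d => W i ^ (R i j).eval n).prod y)) atTop (𝓝 L) :=
  Pool.PolyMax.factor_conv P ν d m T hT hT' W hW hW' p hp hpT R
    (fun g hg => gauss_nil hX hgen T (fun i => ⟨U i, hT i, hT' i, hTU i⟩) hnil m R g hg) f hf

end Pool.Agent.Results.MP_4d8f14_an.GaussianActions
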