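import Pool.Agent.GTP.Final

set_option autoImplicit false
set_option warn.classDefReducibility false

/-!
# Q1 for almost every perturbation of the maps along commuting flows

For `j = 1..m` let `T_j1, .., T_jd` be invertible measure preserving maps that generate a nilpotent
group and `φ^j` a measure preserving flow commuting with them (in Q1: `T_ji = T_i` for all `j`).
For `b ∈ ℝ^r` put `S_ji = φ^j(∑_l Λ_jil b_l) T_ji` with given real numbers `Λ_jil` (in Q1: `r = d`,
`Λ` the identity matrix, `S_i = φ(b_i) T_i`).  For almost every `b` the averages of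
`a_n(x) (∏_j f_j(S_j1^{P_j1(n)} ⋯ S_jd^{P_jd(n)} x) - ∏_j E(f_j|φ^j)(T_j1^{P_j1(n)} ⋯ T_jd^{P_jd(n)} x))`
tend to zero almost everywhere, for all `f_j ∈ L^∞`, arbitrary bounded measurable weights `a_n` and all integer
polynomials `P_ji` vanishing at `0` with the following independence property: for every `j` some direction
`v ∈ ℝ^r` moves the `j`-th time `∑_i P_ji(n) (Λ_j v)_i` but not the earlier ones.  If the flows are ergodic, the
conditional expectations are the integrals.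

Parts: `Pool/Agent/GTP` (this theorem), `Pool/Agent/GT`, `Pool/Agent/GTC/Inv` (averages along flows),
`Pool/Agent/Nil` (maximal inequality for polynomial orbits of nilpotent groups).
-/

open MeasureTheory Filter Topology

namespace Pool.Agent.Results.MP_4d8f14_an.GenericPerturbation

/-- a measure preserving flow, jointly measurable -/
structure IsFlow {X : Type*} [MeasurableSpace X] (μ : Measure X) (φ : ℝ → X → X) : Prop where
  meas : Measurable (fun p : ℝ × X => φ p.1 p.2)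
  zero : ∀ x, φ 0 x = x
  add : ∀ s t x, φ (s + t) x = φ s (φ t x)
  mp : ∀ t, MeasurePreserving (φ t) μ μ

/-- the σ-algebra of the measurable sets which are invariant under the flow -/
def inv {X : Type*} [MeasurableSpace X] (φ : ℝ → X → X) : MeasurableSpace X where
  MeasurableSet' A := MeasurableSet A ∧ ∀ t, φ t ⁻¹' A = A
  measurableSet_empty := ⟨MeasurableSet.empty, fun _ => rfl⟩
  measurableSet_compl A hA := ⟨hA.1.compl, fun t => by rw [Set.preimage_compl, hA.2]⟩
  measurableSet_iUnion f hf := ⟨MeasurableSet.iUnion fun i => (hf i).1, fun t => by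
    rw [Set.preimage_iUnion]
    exact Set.iUnion_congr fun i => (hf i).2 t⟩

/-- **Q1 for almost every perturbation along commuting flows.** -/
theorem result :
    ∀ (X : Type) [MeasurableSpace X] (μ : Measure X) [IsProbabilityMeasure μ] (d m r : ℕ)
      (φ : Fin m → ℝ → X → X) (T : Fin m → Fin d → Equiv.Perm X), (∀ j, IsFlow μ (φ j)) →
      (∀ j i, MeasurePreserving (⇑(T j i)) μ μ) → (∀ j i, Measurable ⇑(T j i).symm) →
      (∀ j, Group.IsNilpotent (Subgroup.closure (Set.range (T j)))) →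
      (∀ j i s x, T j i (φ j s x) = φ j s (T j i x)) →
      ∀ (Λ : Fin m → Fin d → Fin r → ℝ) (a : ℤ → X → ℂ), (∀ n, Measurable (a n)) →
      (∃ C : ℝ, ∀ n x, ‖a n x‖ ≤ C) →
      ∀ F : Set (X → ℂ), (IsSeparable μ ∨ F.Countable) → (∀ f ∈ F, MemLp f ⊤ μ) →
      ∀ᵐ b : Fin r → ℝ, ∀ S : Fin m → Fin d → Equiv.Perm X,
      (∀ j i x, S j i x = φ j (∑ l, Λ j i l * b l) (T j i x)) →
      (∀ j, Group.IsNilpotent (Subgroup.closure (Set.range (S j)))) ∧
      ∀ P : Fin m → Fin d → Polynomial ℤ, (∀ j i, (P j i).eval 0 = 0) →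
      (∀ j, ∃ v : Fin r → ℝ,
        ∑ i, Polynomial.C (∑ l, Λ j i l * v l) * (P j i).map (Int.castRingHom ℝ) ≠ 0 ∧
        ∀ k < j, ∑ i, Polynomial.C (∑ l, Λ k i l * v l) * (P k i).map (Int.castRingHom ℝ) = 0) →
      ∀ f : Fin m → X → ℂ, (∀ j, f j ∈ F) →
      (∀ᵐ x ∂μ, Tendsto (fun N : ℕ => (2 * (N : ℂ) + 1)⁻¹ * ∑ n ∈ Finset.Icc (-(N : ℤ)) N,
        a n x * (∏ j, f j ((List.ofFn fun i => S j i ^ (P j i).eval n).prod x) -
          ∏ j, (μ[f j|inv (φ j)]) ((List.ofFn fun i => T j i ^ (P j i).eval n).prod x)))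
            atTop (𝓝 0)) ∧
      ((∀ j, ∀ A : Set X, MeasurableSet A → (∀ t, φ j t ⁻¹' A = A) → μ A = 0 ∨ μ A = 1) →
        ∀ᵐ x ∂μ, Tendsto (fun N : ℕ => (2 * (N : ℂ) + 1)⁻¹ * ∑ n ∈ Finset.Icc (-(N : ℤ)) N,
          a n x * (∏ j, f j ((List.ofFn fun i => S j i ^ (P j i).eval n).prod x) -
            ∏ j, ∫ y, f j y ∂μ)) atTop (𝓝 0)) := by
  intro X _ μ _ d m r φ T hφ hT hT' hnil hcomm Λ a ha hC F hF hF'
  obtain ⟨C, ha1⟩ := hC
  have hφ' : ∀ j, Pool.Agent.GT.IsFlow μ (φ j) := fun j =>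
    ⟨(hφ j).meas, (hφ j).zero, (hφ j).add, (hφ j).mp⟩
  have hTs : ∀ j i, MeasurePreserving (⇑(T j i).symm) μ μ := fun j i =>
    MeasurePreserving.symm (⟨T j i, (hT j i).measurable, hT' j i⟩ : X ≃ᵐ X) (hT j i)
  have hN : ∀ N : ℕ, (2 * (N : ℂ) + 1)⁻¹ = ((2 * N + 1 : ℕ) : ℂ)⁻¹ := fun N => by
    push_cast
    rfl
  have h := Pool.Agent.GTP.final hφ' hT hTs hnil hcomm Λ ha ha1 hF
  filter_upwards [h] with b hb
  intro S hS
  obtain ⟨h1, h2⟩ := hb S hS
  refine ⟨h1, fun P hP0 hP f hf => ?_⟩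
  obtain ⟨h3, h4⟩ := h2 P hP0 hP f fun j => ⟨hf j, hF' _ (hf j)⟩
  simp only [hN]
  refine ⟨h3, fun herg => h4 fun j A hA hinv => ?_⟩
  rcases herg j A hA hinv with h5 | h5
  · exact Or.inl h5
  · right
    rw [prob_compl_eq_zero_iff hA]
    exact h5

end Pool.Agent.Results.MP_4d8f14_an.GenericPerturbation
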