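import Pool.Agent.Lib.BernoulliDense

set_option autoImplicit false

/-!
# Nilpotent polynomial multiple averages for generalised Bernoulli actions

`I` is any index set, `σ_1, ..., σ_d` are permutations of `I` generating a nilpotent group, and
`X = A^I` carries the product of copies of a probability measure `α` on `A`.  The maps
`T_i : X → X`, `(T_i x)(ι) = x(σ_i⁻¹ ι)` preserve the product measure.  For arbitrary integer
polynomials `P_{i,j}` and any number `m` of functions, each of which is either a uniform limit of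
functions of finitely many coordinates, or an arbitrary bounded measurable function when
`g_j(n) = T_1^{P_{1,j}(n)} ⋯ T_d^{P_{d,j}(n)}` is of the form `S^n`, the averages
`(2N+1)⁻¹ ∑_{|n| ≤ N} ∏_j f_j (g_j(n) x)` converge almost everywhere.
-/

open MeasureTheory Filter Topology Finset
open scoped ENNReal

namespace Pool.Agent.Results.MP_4d8f14_an.NilpotentBernoulli

open Pool.Lib.Erg Pool.Lib.PolySeq

variable {I A : Type*}

/-- The map of `A^I` induced by a permutation `σ` of `I` : `(T x)(ι) = x (σ⁻¹ ι)`. -/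
def shift (A : Type*) (σ : Equiv.Perm I) : Equiv.Perm (I → A) where
  toFun x i := x (σ⁻¹ i)
  invFun x i := x (σ i)
  left_inv x := by funext i; simp
  right_inv x := by funext i; simp

/-- Bounded measurable functions on `A^I` that depend on finitely many coordinates. -/
def FinitelyManyCoords [MeasurableSpace A] (φ : (I → A) → ℂ) : Prop :=
  Measurable φ ∧ (∃ C : ℝ, ∀ x, ‖φ x‖ ≤ C) ∧
    ∃ F : Finset I, ∀ x y : I → A, (∀ i ∈ F, x i = y i) → φ x = φ y

/-- Uniform limits of bounded measurable functions of finitely many coordinates. -/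
def UniformlyLocal [MeasurableSpace A] (f : (I → A) → ℂ) : Prop :=
  ∀ ε : ℝ, 0 < ε → ∃ φ : (I → A) → ℂ, FinitelyManyCoords φ ∧ ∀ x, ‖f x - φ x‖ ≤ ε

/-- `shift` as a homomorphism. -/
def shiftHom (A : Type*) : Equiv.Perm I →* Equiv.Perm (I → A) where
  toFun := shift A
  map_one' := by ext x i; rfl
  map_mul' σ τ := by
    ext x i
    show x ((σ * τ)⁻¹ i) = x (τ⁻¹ (σ⁻¹ i))
    rw [mul_inv_rev]
    rfl

lemma shift_preserving [MeasurableSpace A] (α : Measure A) [IsProbabilityMeasure α]
    (σ : Equiv.Perm I) : MeasurePreserving (shift A σ) (Measure.infinitePi fun _ : I => α)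
      (Measure.infinitePi fun _ : I => α) :=
  perm_preserving α σ⁻¹

/-- One sided version. -/
theorem one_sided [MeasurableSpace A] (α : Measure A) [IsProbabilityMeasure α] (d m : ℕ)
    (σ : Fin d → Equiv.Perm I) (hσ : Group.IsNilpotent (Subgroup.closure (Set.range σ)))
    (P : Fin d → Fin m → Polynomial ℤ) (f : Fin m → (I → A) → ℂ)
    (hf : ∀ j, UniformlyLocal (f j) ∨ (MemLp (f j) ∞ (Measure.infinitePi fun _ : I => α) ∧
      ∃ S : Equiv.Perm (I → A), ∀ n : ℕ,
        (List.ofFn fun i : Fin d => shift A (σ i) ^ (P i j).eval (n : ℤ)).prod = S ^ n)) :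
    ∀ᵐ x ∂(Measure.infinitePi fun _ : I => α), ∃ L : ℂ, Tendsto (avg fun n : ℕ =>
      ∏ j : Fin m, f j ((List.ofFn fun i : Fin d =>
        shift A (σ i) ^ (P i j).eval (n : ℤ)).prod x)) atTop (𝓝 L) := by
  classical
  set G := Subgroup.closure (Set.range σ) with hG
  haveI : Group.IsNilpotent G := hσ
  -- the polynomial sequences in `G`
  let s : Fin d → G := fun i => ⟨σ i, Subgroup.subset_closure ⟨i, rfl⟩⟩
  let p : Fin m → ℕ → G := fun j n => (List.ofFn fun i : Fin d => s i ^ (P i j).eval (n : ℤ)).prod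
  set D : ℕ := ∑ i, ∑ j, (P i j).natDegree with hD
  have hdeg : ∀ i j, (P i j).natDegree ≤ D := by
    intro i j
    calc (P i j).natDegree ≤ ∑ j, (P i j).natDegree :=
          Finset.single_le_sum (f := fun j => (P i j).natDegree) (fun _ _ => Nat.zero_le _)
            (mem_univ j)
      _ ≤ D := Finset.single_le_sum (f := fun i => ∑ j, (P i j).natDegree)
          (fun _ _ => Nat.zero_le _) (mem_univ i)
  have hp : ∀ j, p j ∈ Subgroup.closure (monos G D) := by
    intro j
    have e : p j = (List.ofFn fun i : Fin d => fun n : ℕ => s i ^ (P i j).eval (n : ℤ)).prod := by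
      funext n
      have := map_list_prod (Pi.evalMonoidHom (fun _ : ℕ => G) n)
        (List.ofFn fun i : Fin d => fun n : ℕ => s i ^ (P i j).eval (n : ℤ))
      rw [List.map_ofFn] at this
      exact this.symm
    rw [e]
    apply Subgroup.list_prod_mem
    intro g hg
    rw [List.mem_ofFn] at hg
    obtain ⟨i, rfl⟩ := hg
    exact Subgroup.subset_closure ⟨s i, P i j, hdeg i j, rfl⟩
  have hg : ∀ j (n : ℕ), (List.ofFn fun i : Fin d =>
      shift A (σ i) ^ (P i j).eval (n : ℤ)).prod = shift A ((p j n : G) : Equiv.Perm I) := by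
    intro j n
    have h1 : ((p j n : G) : Equiv.Perm I) =
        (List.ofFn fun i : Fin d => σ i ^ (P i j).eval (n : ℤ)).prod := by
      have := map_list_prod G.subtype (List.ofFn fun i : Fin d => s i ^ (P i j).eval (n : ℤ))
      rw [List.map_ofFn] at this
      exact this
    rw [h1]
    have h2 := map_list_prod (shiftHom (I := I) A)
      (List.ofFn fun i : Fin d => σ i ^ (P i j).eval (n : ℤ))
    rw [List.map_ofFn] at h2
    have h3 : (shiftHom (I := I) A ∘ fun i : Fin d => σ i ^ (P i j).eval (n : ℤ)) =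
        fun i : Fin d => shift A (σ i) ^ (P i j).eval (n : ℤ) := by
      funext i
      exact map_zpow (shiftHom (I := I) A) (σ i) _
    rw [h3] at h2
    exact h2.symm
  simp_rw [hg] at hf ⊢
  apply multi_closure2 (μ := Measure.infinitePi fun _ : I => α)
    (fun j n => ⇑(shift A ((p j n : G) : Equiv.Perm I)))
    (fun j n => shift_preserving α _) {φ | IsLocal φ}
    (fun φ hφ => ⟨hφ.1.aestronglyMeasurable, hφ.2.1⟩)
  · intro g hg ε hε
    exact dense_local α g (hg.mono_exponent (by simp)) ε hε
  · intro φ hφ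
    exact bern_local (α := α) p D hp φ hφ
  · intro j
    rcases hf j with h | ⟨h, S, hS⟩
    · left
      intro ε hε
      obtain ⟨φ, h1, h2⟩ := h ε hε
      exact ⟨φ, h1, h2⟩
    · right
      refine ⟨h, S, ?_, fun n => ?_⟩
      · have := hS 1
        rw [pow_one] at this
        rw [← this]
        exact shift_preserving α _
      · rw [hS n, Equiv.Perm.coe_pow]

/-- **Main theorem.** -/
theorem result {I A : Type*} [MeasurableSpace A] (α : Measure A) [IsProbabilityMeasure α]
    (d m : ℕ) (σ : Fin d → Equiv.Perm I)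
    (hσ : Group.IsNilpotent (Subgroup.closure (Set.range σ)))
    (P : Fin d → Fin m → Polynomial ℤ) (f : Fin m → (I → A) → ℂ)
    (hf : ∀ j, UniformlyLocal (f j) ∨ (MemLp (f j) ∞ (Measure.infinitePi fun _ : I => α) ∧
      ∃ S : Equiv.Perm (I → A), ∀ n : ℤ,
        (List.ofFn fun i : Fin d => shift A (σ i) ^ (P i j).eval n).prod = S ^ n)) :
    ∀ᵐ x ∂(Measure.infinitePi fun _ : I => α), ∃ L : ℂ, Tendsto
      (fun N : ℕ => ((2 * N + 1 : ℕ) : ℂ)⁻¹ *
        ∑ n ∈ Finset.Icc (-(N : ℤ)) (N : ℤ), ∏ j : Fin m,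
          f j ((List.ofFn fun i : Fin d => shift A (σ i) ^ (P i j).eval n).prod x))
      atTop (𝓝 L) := by
  have h1 := one_sided α d m σ hσ P f (by
    intro j
    rcases hf j with h | ⟨h, S, hS⟩
    · exact Or.inl h
    · refine Or.inr ⟨h, S, fun n => ?_⟩
      rw [hS n, zpow_natCast])
  have h2 := one_sided α d m σ hσ (fun i j => (P i j).comp (-Polynomial.X)) f (by
    intro j
    rcases hf j with h | ⟨h, S, hS⟩
    · exact Or.inl h
    · refine Or.inr ⟨h, S⁻¹, fun n => ?_⟩
      simp only [Polynomial.eval_comp, Polynomial.eval_neg, Polynomial.eval_X]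
      rw [hS (-(n : ℤ)), zpow_neg, zpow_natCast, inv_pow])
  filter_upwards [h1, h2] with x ⟨L1, hL1⟩ ⟨L2, hL2⟩
  refine ⟨(L1 + L2) / 2, ?_⟩
  apply two_sided (fun n : ℤ => ∏ j : Fin m,
    f j ((List.ofFn fun i : Fin d => shift A (σ i) ^ (P i j).eval n).prod x)) L1 L2 hL1
  simpa only [Polynomial.eval_comp, Polynomial.eval_neg, Polynomial.eval_X] using hL2

end Pool.Agent.Results.MP_4d8f14_an.NilpotentBernoulli
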