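import Pool.Agent.PinskerA.MaxNilp

set_option autoImplicit false
set_option warn.classDefReducibility false

/-!
# The Pinsker factor is characteristic for pointwise convergence (nilpotent groups)

`T_1, …, T_d` are invertible measure preserving maps that generate a nilpotent group `G` (of any
step), `g_j(n) = T_1^{P_1j(n)} ⋯ T_d^{P_dj(n)}` with integer polynomials vanishing at `0`.

Suppose that homomorphisms `G → ℝ` tell the sequences `g_j` from each other and from `1`.  Then
for all `f_j ∈ L^∞` the averages of `∏ f_j(g_j(n)x)` and of `∏ E(f_j|Π)(g_j(n)x)` over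
`n ∈ [-N, N]` have difference tending to zero almost everywhere, where `Π` is the σ-algebra of the
sets of zero `G`-entropy.  If `Π` is trivial the limit is `∏ ∫ f_j`.

Parts: `Pool/Agent/Pinsker`, `Pool/Agent/PinskerA` (entropy, remote past, Shearer's inequality,
odometers), `Pool/Agent/Lib/RemotePast*` (orthogonality to the past),
`Pool/Agent/Nil` (the maximal inequality for polynomial sequences of nilpotent groups).
-/

open MeasureTheory Filter Topology
open scoped ENNReal

namespace Pool.Agent.Results.MP_4d8f14_an.PinskerFactor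

/-- `B` has zero entropy for the group `G` of permutations of `X`: for every `ε > 0` there is a
nonempty finite `F ⊆ G` such that the Shannon entropy of the partition of `X` according to the
pattern `{g ∈ F : g x ∈ B}` is at most `ε |F|`. -/
def ZeroEntropy {X : Type*} [MeasurableSpace X] (μ : Measure X) (G : Subgroup (Equiv.Perm X))
    (B : Set X) : Prop :=
  ∀ ε : ℝ, 0 < ε → ∃ F : Finset G, 0 < F.card ∧
    ∑ S ∈ F.powerset, Real.negMulLog (μ.real {x | ∀ g ∈ F, ((g : Equiv.Perm X) x ∈ B ↔ g ∈ S)}) ≤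
      ε * F.card

/-- the σ-algebra generated by the measurable sets of zero entropy -/
def pinskerAlgebra {X : Type*} [MeasurableSpace X] (μ : Measure X)
    (G : Subgroup (Equiv.Perm X)) : MeasurableSpace X :=
  MeasurableSpace.generateFrom {B | MeasurableSet B ∧ ZeroEntropy μ G B}

/-- **The Pinsker factor is characteristic for pointwise convergence.** -/
theorem result :
    ∀ (X : Type) [MeasurableSpace X] (μ : Measure X) [IsProbabilityMeasure μ]
      (d m : ℕ) (T : Fin d → Equiv.Perm X), (∀ i, Measurable ⇑(T i).symm) →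
      (∀ i, MeasurePreserving (⇑(T i)) μ μ) →
      Group.IsNilpotent (Subgroup.closure (Set.range T)) →
      ∀ (P : Fin d → Fin m → Polynomial ℤ), (∀ i j, (P i j).eval 0 = 0) →
      ∀ g : Fin m → ℤ → Subgroup.closure (Set.range T),
      (∀ j n, (g j n : Equiv.Perm X) = (List.ofFn fun i => T i ^ (P i j).eval n).prod) →
      (∀ j, ∃ (φ : Subgroup.closure (Set.range T) →* Multiplicative ℝ) (n : ℤ), φ (g j n) ≠ 1) →
      (∀ j k, j ≠ k → ∃ (φ : Subgroup.closure (Set.range T) →* Multiplicative ℝ) (n : ℤ),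
        φ (g j n) ≠ φ (g k n)) →
      ∀ (f : Fin m → X → ℂ), (∀ j, MemLp (f j) ∞ μ) →
      (∀ B : Set X, MeasurableSet[pinskerAlgebra μ (Subgroup.closure (Set.range T))] B ↔
        (MeasurableSet B ∧ ZeroEntropy μ (Subgroup.closure (Set.range T)) B)) ∧
      (∀ᵐ x ∂μ, Tendsto (fun N : ℕ => (2 * (N : ℂ) + 1)⁻¹ *
        ∑ n ∈ Finset.Icc (-(N : ℤ)) N,
          (∏ j, f j ((g j n : Equiv.Perm X) x) -
            ∏ j, (μ[f j|pinskerAlgebra μ (Subgroup.closure (Set.range T))])
              ((g j n : Equiv.Perm X) x))) atTop (𝓝 0)) ∧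
      ((∀ B : Set X, MeasurableSet B → ZeroEntropy μ (Subgroup.closure (Set.range T)) B →
          μ B = 0 ∨ μ B = 1) →
        ∀ᵐ x ∂μ, Tendsto (fun N : ℕ => (2 * (N : ℂ) + 1)⁻¹ *
          ∑ n ∈ Finset.Icc (-(N : ℤ)) N, ∏ j, f j ((g j n : Equiv.Perm X) x)) atTop
          (𝓝 (∏ j, ∫ x, f j x ∂μ))) := by
  intro X _ μ _ d m T hT' hT hnil P hP0 g hg h1 h2 f hf
  choose φ1 n1 hφ1 using h1
  have h2' : ∀ p : Fin m × Fin m, ∃ (φ : Subgroup.closure (Set.range T) →* Multiplicative ℝ)
      (n : ℤ), p.1 ≠ p.2 → φ (g p.1 n) ≠ φ (g p.2 n) := by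
    rintro ⟨j, k⟩
    by_cases hjk : j = k
    · exact ⟨1, 0, fun h => absurd hjk h⟩
    · obtain ⟨φ, n, h⟩ := h2 j k hjk
      exact ⟨φ, n, fun _ => h⟩
  choose φ2 n2 hφ2 using h2'
  classical
  obtain ⟨φ, hφ⟩ := Pool.PinskerA.generic
    (fun a : Fin m ⊕ {p : Fin m × Fin m // p.1 ≠ p.2} => Sum.elim (fun j => g j (n1 j))
      (fun p => (g p.1.1 (n2 p.1))⁻¹ * g p.1.2 (n2 p.1)) a) Finset.univ (by
      rintro (j | ⟨p, hp⟩) -
      · exact ⟨φ1 j, hφ1 j⟩
      · refine ⟨φ2 p, fun h => hφ2 p hp ?_⟩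
        simp only [Sum.elim_inr, map_mul, map_inv] at h
        exact (inv_mul_eq_one.1 h))
  have c := Pool.PinskerA.nilp X μ d m T hT' hT hnil (fun x => Multiplicative.toAdd (φ x))
    (fun a b => by simp only [map_mul, toAdd_mul]) P hP0 g hg
    (fun j => ⟨n1 j, fun h => hφ (Sum.inl j) (Finset.mem_univ _) h⟩)
    (fun i j hij => ⟨n2 (i, j), fun h => hφ (Sum.inr ⟨(i, j), hij⟩) (Finset.mem_univ _) (by
      simp only [Sum.elim_inr, map_mul, map_inv]
      exact inv_mul_eq_one.2 h)⟩)
    (fun j => Pool.PinskerA.maxProp_nilp μ T hT' hT hnil fun i => P i j) f hf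
  simp only [hg]
  exact c

end Pool.Agent.Results.MP_4d8f14_an.PinskerFactor
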