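import Pool.Agent.Lib.RemotePast3

set_option autoImplicit false

/-!
# The remote past is characteristic for pointwise convergence

A group `G` acts on a probability space by measure preserving maps, `φ : G → ℝ` is additive and
`𝒜 t` (`t` real) is an increasing family of σ-algebras with `g⁻¹ 𝒜 t ⊆ 𝒜 (t + φ g)`.
Put `g_j(n) = T_1 ^ P_1j(n) ⋯ T_d ^ P_dj(n)` with `T_i ∈ G`.  If the heights `φ (g_j(n))` and their
pairwise differences are not constant in `n`, then the averages of `∏ f_j (g_j(n) x)` and of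
`∏ E(f_j|⨅ 𝒜) (g_j(n) x)` over `n ∈ [-N, N]` have difference tending to zero almost everywhere.
-/

open MeasureTheory Filter Topology Finset
open scoped ENNReal NNReal

namespace Pool.Agent.Results.MP_4d8f14_an.RemotePast

open Pool.Lib.Erg Pool.Lib.RM Pool.Lib.RP

/-! ### Heights -/

lemma ev_pos (q : Polynomial ℝ) (hq : 0 < q.leadingCoeff) :
    ∃ c : ℝ, 0 < c ∧ ∃ x0 : ℝ, ∀ x ≥ x0, c ≤ q.eval x := by
  by_cases h : q.natDegree = 0
  · refine ⟨q.leadingCoeff, hq, 0, fun x _ => ?_⟩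
    have h1 := Polynomial.eq_C_of_natDegree_eq_zero h
    rw [h1]
    simp
  · have hdeg : 0 < q.degree := Polynomial.natDegree_pos_iff_degree_pos.1 (Nat.pos_of_ne_zero h)
    have h1 := q.tendsto_atTop_of_leadingCoeff_nonneg hdeg hq.le
    obtain ⟨x0, hx0⟩ := eventually_atTop.1 (h1.eventually_ge_atTop 1)
    exact ⟨1, one_pos, x0, hx0⟩

/-- eventually increasing at least linearly -/
def Inc (p : Polynomial ℝ) : Prop :=
  ∃ c : ℝ, 0 < c ∧ ∃ x0 : ℝ, ∀ x ≥ x0, ∀ y ≥ x, c * (y - x) ≤ p.eval y - p.eval x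

lemma inc_of_pos (p : Polynomial ℝ) (hp : 0 < p.derivative.leadingCoeff) : Inc p := by
  obtain ⟨c, hc, x0, hx0⟩ := ev_pos _ hp
  refine ⟨c, hc, x0, fun x hx y hy => ?_⟩
  have := (convex_Ici x0).mul_sub_le_image_sub_of_le_deriv (f := fun x => p.eval x)
    p.continuous.continuousOn p.differentiable.differentiableOn (C := c) (by
      intro z hz
      rw [Polynomial.deriv]
      exact hx0 z (interior_subset hz)) x hx y (hx.le.trans hy) hy
  exact this

lemma dichotomy (p : Polynomial ℝ) (hp : ∃ a b : ℝ, p.eval a ≠ p.eval b) : Inc p ∨ Inc (-p) := by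
  have hd : p.derivative ≠ 0 := by
    intro h
    have h1 := Polynomial.natDegree_eq_zero_of_derivative_eq_zero h
    obtain ⟨a, b, hab⟩ := hp
    apply hab
    rw [Polynomial.eq_C_of_natDegree_eq_zero h1]
    simp
  rcases lt_or_gt_of_ne (Polynomial.leadingCoeff_ne_zero.2 hd) with h | h
  · right
    apply inc_of_pos
    rw [Polynomial.derivative_neg, Polynomial.leadingCoeff_neg]
    linarith
  · left
    exact inc_of_pos p h

lemma inc_gap (p : Polynomial ℝ) (hp : Inc p) (K : ℝ) :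
    ∃ C : ℕ, ∀ n : ℕ, n ≥ C → ∀ n' : ℕ, n' ≥ n + C → p.eval (n : ℝ) + K ≤ p.eval (n' : ℝ) := by
  obtain ⟨c, hc, x0, h⟩ := hp
  obtain ⟨C1, hC1⟩ := exists_nat_ge x0
  obtain ⟨C2, hC2⟩ := exists_nat_ge (K / c)
  refine ⟨max C1 C2, fun n hn n' hn' => ?_⟩
  have h1 : (C1 : ℝ) ≤ n := by exact_mod_cast (le_max_left _ _).trans hn
  have h2 : (n : ℝ) + C2 ≤ n' := by
    have : n + C2 ≤ n' := by
      have := le_max_right C1 C2
      omega
    exact_mod_cast this
  have h3 : (0 : ℝ) ≤ C2 := Nat.cast_nonneg _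
  have h4 := h n (by linarith) n' (by linarith)
  have h5 : K ≤ c * ((n' : ℝ) - n) := by
    rw [div_le_iff₀ hc] at hC2
    calc K ≤ C2 * c := hC2
      _ ≤ ((n' : ℝ) - n) * c := mul_le_mul_of_nonneg_right (by linarith) hc.le
      _ = _ := mul_comm _ _
  linarith

lemma inc_below (p q : Polynomial ℝ) (h : Inc (q - p)) :
    Below (fun n => p.eval (n : ℝ)) (fun n => q.eval (n : ℝ)) := by
  intro K
  obtain ⟨c, hc, x0, h⟩ := h
  obtain ⟨C1, hC1⟩ := exists_nat_ge (x0 + |(K - (q - p).eval x0)| / c)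
  refine ⟨C1, fun n hn => ?_⟩
  have h1 : (C1 : ℝ) ≤ n := by exact_mod_cast hn
  have h0 : 0 ≤ |(K - (q - p).eval x0)| / c := by positivity
  have h2 := h x0 le_rfl n (by linarith)
  have h3 : |(K - (q - p).eval x0)| ≤ c * ((n : ℝ) - x0) := by
    have : |(K - (q - p).eval x0)| / c ≤ (n : ℝ) - x0 := by linarith
    rw [div_le_iff₀ hc] at this
    linarith
  have h4 := le_abs_self (K - (q - p).eval x0)
  rw [Polynomial.eval_sub] at h2
  simp only
  linarith

/-! ### The theorem -/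

variable {X : Type*} {m0 : MeasurableSpace X} {G : Type*} [Group G] [MulAction G X]

/-- The group elements `g_j(n) = T_1 ^ P_1j(n) ⋯ T_d ^ P_dj(n)`. -/
def gel {d m : ℕ} (T : Fin d → G) (P : Fin d → Fin m → Polynomial ℤ) (j : Fin m) (n : ℤ) : G :=
  (List.ofFn fun i => T i ^ (P i j).eval n).prod

/-- the height polynomial -/
noncomputable def hpoly (φ : G → ℝ) {d m : ℕ} (T : Fin d → G) (P : Fin d → Fin m → Polynomial ℤ)
    (j : Fin m) : Polynomial ℝ :=
  ∑ i, Polynomial.C (φ (T i)) * (P i j).map (Int.castRingHom ℝ)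

lemma height (φ : G → ℝ) (hφ : ∀ g h : G, φ (g * h) = φ g + φ h) {d m : ℕ} (T : Fin d → G)
    (P : Fin d → Fin m → Polynomial ℤ) (j : Fin m) (n : ℤ) :
    φ (gel T P j n) = (hpoly φ T P j).eval (n : ℝ) := by
  set Φ : G →* Multiplicative ℝ := MonoidHom.mk' (fun g => Multiplicative.ofAdd (φ g))
    (fun g h => by rw [hφ]; rfl) with hΦ
  have h1 : ∀ g, φ g = Multiplicative.toAdd (Φ g) := fun g => rfl
  unfold gel hpoly
  rw [h1, map_list_prod, List.map_ofFn, List.prod_ofFn, toAdd_prod, Polynomial.eval_finset_sum]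
  apply Finset.sum_congr rfl
  intro i _
  rw [Function.comp_apply, map_zpow, toAdd_zpow, ← h1, Polynomial.eval_mul, Polynomial.eval_C]
  rw [zsmul_eq_mul, mul_comm]
  congr 1
  rw [Polynomial.eval_intCast_map]
  rfl

/-- The remainder is small in linear slots and in slots where single averages converge. -/
lemma small_gen {μ : Measure X} [IsProbabilityMeasure μ]
    (hG : ∀ g : G, MeasurePreserving (fun x : X => g • x) μ μ) (g : ℤ → G) (γ : ℕ → G)
    (hγ : (∀ n : ℕ, γ n = g n) ∨ (∀ n : ℕ, γ n = g (-(n : ℤ))))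
    (hslot : (∃ S : G, ∀ n : ℤ, g n = S ^ n) ∨
      (∀ v : X → ℝ, Measurable[m0] v → (∃ c : ℝ, ∀ x, |v x| ≤ c) → ∀ᵐ x ∂μ, ∃ L : ℝ,
        Tendsto (fun N : ℕ => (2 * (N : ℝ) + 1)⁻¹ *
          ∑ n ∈ Finset.Icc (-(N : ℤ)) N, v (g n • x)) atTop (𝓝 L))) (r : ℝ → X → ℂ)
    (hr : ∀ ε : ℝ, 0 < ε → ∃ t, ∃ v : X → ℝ, Measurable[m0] v ∧ (∃ c : ℝ, ∀ x, |v x| ≤ c) ∧
      (∀ x, 0 ≤ v x) ∧ (∀ᵐ x ∂μ, ‖r t x‖ = v x) ∧ ∫ x, v x ∂μ ≤ ε) :
    Small μ (fun n x => γ n • x) r := by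
  intro ε hε
  obtain ⟨t, v, hvm, hvb, hv0, hrv, hvint⟩ := hr (ε ^ 2 / 3) (by positivity)
  have hvi : Integrable v μ := by
    obtain ⟨c, hc⟩ := hvb
    exact Integrable.of_bound hvm.aestronglyMeasurable c (Eventually.of_forall hc)
  have h1 : ∀ᵐ x ∂μ, ∀ n, ‖r t (γ n • x)‖ = v (γ n • x) := by
    rw [ae_all_iff]
    intro n
    exact (hG (γ n)).quasiMeasurePreserving.ae hrv
  rcases hslot with ⟨S, hS⟩ | hv
  · obtain ⟨S', hS'⟩ : ∃ S' : G, ∀ n : ℕ, γ n = S' ^ n := by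
      rcases hγ with h | h
      · refine ⟨S, fun n => ?_⟩
        rw [h, hS, zpow_natCast]
      · refine ⟨S⁻¹, fun n => ?_⟩
        rw [h, hS, zpow_neg, zpow_natCast, inv_pow]
    have hw := weak_type (fun x : X => S' • x) (hG S') v hvi hv0 ε hε
    refine ⟨t, {x | ∃ n : ℕ, ε * n < ∑ i ∈ range n, v ((fun x : X => S' • x)^[i] x)}, ?_, ?_⟩
    · refine hw.trans (ENNReal.ofReal_le_ofReal ?_)
      rw [div_le_iff₀ hε]
      nlinarith [sq_nonneg ε]
    · filter_upwards [h1] with x hx1 hx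
      refine Eventually.of_forall fun N => ?_
      replace hx : ¬ ∃ n : ℕ, ε * n < ∑ i ∈ range n, v ((fun x : X => S' • x)^[i] x) := hx
      push Not at hx
      have h3 := hx N
      have h2 : ∀ i, (fun x : X => S' • x)^[i] x = γ i • x := by
        intro i
        rw [smul_iterate, hS']
      simp_rw [h2] at h3
      simp_rw [hx1]
      rcases Nat.eq_zero_or_pos N with h0 | h0
      · subst h0; simpa using hε.le
      · have hN : (0 : ℝ) < N := by exact_mod_cast h0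
        rw [inv_mul_le_iff₀ hN, mul_comm]
        exact h3
  · obtain ⟨E, hE, hEx⟩ := avg_large_two (μ := μ) (fun n x => g n • x) (fun n => hG (g n)) v
      hv0 hvi (hv v hvm hvb) (ε / 3) (by positivity)
    refine ⟨t, E, hE.trans (ENNReal.ofReal_le_ofReal ?_), ?_⟩
    · rw [div_le_iff₀ (by positivity)]
      calc _ ≤ ε ^ 2 / 3 := hvint
        _ = ε * (ε / 3) := by ring
    · filter_upwards [h1, hEx] with x hx1 hx2 hxE
      filter_upwards [hx2 hxE, eventually_ge_atTop 1] with N hN hN1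
      have hNpos : (0 : ℝ) < N := by exact_mod_cast hN1
      have h2 : ∑ n ∈ range N, ‖r t (γ n • x)‖ ≤
          ∑ n ∈ Finset.Icc (-(N : ℤ)) N, v (g n • x) := by
        simp_rw [hx1]
        rcases hγ with hγ | hγ
        · simp_rw [hγ]
          calc ∑ n ∈ range N, v (g (n : ℤ) • x) =
              ∑ z ∈ (range N).image (fun n : ℕ => (n : ℤ)), v (g z • x) := by
                rw [Finset.sum_image]
                intro p _ q _ h
                simpa using h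
            _ ≤ _ := by
                apply Finset.sum_le_sum_of_subset_of_nonneg
                · intro z hz
                  rw [Finset.mem_image] at hz
                  obtain ⟨n, hn, rfl⟩ := hz
                  rw [mem_range] at hn
                  rw [Finset.mem_Icc]
                  constructor <;> omega
                · intro z _ _; exact hv0 _
        · simp_rw [hγ]
          calc ∑ n ∈ range N, v (g (-(n : ℤ)) • x) =
              ∑ z ∈ (range N).image (fun n : ℕ => -(n : ℤ)), v (g z • x) := by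
                rw [Finset.sum_image]
                intro p _ q _ h
                simp only [neg_inj] at h
                exact_mod_cast h
            _ ≤ _ := by
                apply Finset.sum_le_sum_of_subset_of_nonneg
                · intro z hz
                  rw [Finset.mem_image] at hz
                  obtain ⟨n, hn, rfl⟩ := hz
                  rw [mem_range] at hn
                  rw [Finset.mem_Icc]
                  constructor <;> omega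
                · intro z _ _; exact hv0 _
      rw [inv_mul_le_iff₀ (by positivity)] at hN
      rw [inv_mul_le_iff₀ hNpos]
      have h3 : (1 : ℝ) ≤ N := by exact_mod_cast hN1
      calc _ ≤ (2 * (N : ℝ) + 1) * (ε / 3) := h2.trans hN
        _ ≤ (3 * N) * (ε / 3) := by
            apply mul_le_mul_of_nonneg_right _ (by positivity)
            linarith
        _ = N * ε := by ring

/-- One sided version. -/
theorem one_sided (μ : Measure X) [IsProbabilityMeasure μ]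
    (hG : ∀ g : G, MeasurePreserving (fun x : X => g • x) μ μ)
    (φ : G → ℝ) (hφ : ∀ g h : G, φ (g * h) = φ g + φ h)
    (𝒜 : ℝ → MeasurableSpace X) (hmono : Monotone 𝒜) (hle : ∀ t, 𝒜 t ≤ m0)
    (hcomap : ∀ (g : G) t, (𝒜 t).comap (fun x => g • x) ≤ 𝒜 (t + φ g))
    {m : ℕ} (g : Fin m → ℤ → G) (γ : Fin m → ℕ → G)
    (hγ : (∀ j, ∀ n : ℕ, γ j n = g j n) ∨ (∀ j, ∀ n : ℕ, γ j n = g j (-(n : ℤ))))
    (p : Fin m → Polynomial ℝ) (hp : ∀ j, ∀ n : ℕ, φ (γ j n) = (p j).eval (n : ℝ))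
    (R0 : Finset (Fin m)) (h1 : ∀ j ∈ R0, ∃ a b : ℝ, (p j).eval a ≠ (p j).eval b)
    (h2 : ∀ i ∈ R0, ∀ j ∈ R0, i ≠ j → ∃ a b : ℝ, (p j - p i).eval a ≠ (p j - p i).eval b)
    (f e : Fin m → X → ℂ) (D : ℝ) (hD1 : 1 ≤ D) (hf : ∀ j, Measurable[⨆ t, 𝒜 t] (f j))
    (hfD : ∀ j x, ‖f j x‖ ≤ D)
    (he : ∀ j, Measurable[⨅ t, 𝒜 t] (e j)) (heD : ∀ j x, ‖e j x‖ ≤ D)
    (hee : ∀ j, e j =ᵐ[μ] μ[f j|⨅ t, 𝒜 t]) (hout : ∀ j, j ∉ R0 → f j =ᵐ[μ] e j)
    (hslot : ∀ j ∈ R0, (∃ S : G, ∀ n : ℤ, g j n = S ^ n) ∨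
      (∀ v : X → ℝ, Measurable[m0] v → (∃ c : ℝ, ∀ x, |v x| ≤ c) → ∀ᵐ x ∂μ, ∃ L : ℝ,
        Tendsto (fun N : ℕ => (2 * (N : ℝ) + 1)⁻¹ *
          ∑ n ∈ Finset.Icc (-(N : ℤ)) N, v (g j n • x)) atTop (𝓝 L)) ∨
      (∀ ε : ℝ, 0 < ε → ∃ s t : ℝ, (∀ᵐ x ∂μ, ‖f j x - μ[f j|𝒜 s] x‖ ≤ ε) ∧
        ∀ᵐ x ∂μ, ‖μ[f j|𝒜 t] x - μ[f j|⨅ t, 𝒜 t] x‖ ≤ ε)) :
    ∀ᵐ x ∂μ, Tendsto (avg fun n => ∏ j, f j (γ j n • x) - ∏ j, e j (γ j n • x)) atTop (𝓝 0) := by
  have hS : (⨆ t, 𝒜 t) ≤ m0 := iSup_le hle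
  have hT : (⨅ t, 𝒜 t) ≤ m0 := (iInf_le _ 0).trans (hle 0)
  have hf0 : ∀ j, Measurable[m0] (f j) := fun j u hu => hS _ (hf j hu)
  have hinv : ∀ g : G, φ g⁻¹ = - φ g := by
    intro g
    have e1 := hφ g g⁻¹
    have e2 := hφ 1 1
    rw [mul_inv_cancel] at e1
    rw [mul_one] at e2
    linarith
  have hphi : ∀ j, (fun n => φ (γ j n)) = fun n : ℕ => (p j).eval (n : ℝ) := fun j =>
    funext fun n => hp j n
  apply replace_join hG 𝒜 hmono hle φ hinv hcomap γ R0 _ _ f e D hD1 hf0 hfD he heD hee hout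
  · -- going up
    intro j
    by_cases hj : j ∈ R0
    swap
    · -- `f j` is measurable with respect to the tail
      intro ε hε
      refine ⟨0, ∅, by simp, ?_⟩
      have h1 : μ[f j|𝒜 0] =ᵐ[μ] μ[e j|𝒜 0] := condExp_congr_ae (hout j hj)
      have h2 : μ[e j|𝒜 0] = e j := condExp_of_stronglyMeasurable (hle _)
        (Measurable.stronglyMeasurable fun u hu => (iInf_le _ _ : (⨅ t, 𝒜 t) ≤ 𝒜 0) _
          (he j hu)) (integrable_condExp.congr (hee j).symm)
      rw [h2] at h1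
      have h3 : ∀ᵐ x ∂μ, ‖f j x - μ[f j|𝒜 0] x‖ = 0 := by
        filter_upwards [h1, hout j hj] with x hx1 hx2
        rw [hx1, hx2, sub_self, norm_zero]
      have h4 : ∀ᵐ x ∂μ, ∀ n, ‖f j (γ j n • x) - μ[f j|𝒜 0] (γ j n • x)‖ = 0 := by
        rw [ae_all_iff]
        intro n
        exact (hG (γ j n)).quasiMeasurePreserving.ae h3
      filter_upwards [h4] with x hx _
      refine Eventually.of_forall fun N => ?_
      have h5 : ∑ n ∈ range N, ‖f j (γ j n • x) - μ[f j|𝒜 0] (γ j n • x)‖ = 0 :=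
        Finset.sum_eq_zero fun n _ => hx n
      rw [h5, mul_zero]
      exact hε.le
    have hgen : ((∃ S : G, ∀ n : ℤ, g j n = S ^ n) ∨
        (∀ v : X → ℝ, Measurable[m0] v → (∃ c : ℝ, ∀ x, |v x| ≤ c) → ∀ᵐ x ∂μ, ∃ L : ℝ,
        Tendsto (fun N : ℕ => (2 * (N : ℝ) + 1)⁻¹ *
          ∑ n ∈ Finset.Icc (-(N : ℤ)) N, v (g j n • x)) atTop (𝓝 L))) →
        Small μ (fun n x => γ j n • x) (fun s x => f j x - μ[f j|𝒜 s] x) := by
      intro hs
      apply small_gen hG (g j) (γ j) (hγ.imp (fun h => h j) (fun h => h j)) hs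
      intro ε hε
      obtain ⟨s, hs⟩ := exists_level_up (μ := μ) 𝒜 hmono hle (f j) (hf j) D (hfD j) ε hε
      obtain ⟨c, hcm, hcD, hce⟩ := exists_version (μ := μ) (𝒜 s) (hle s) (f j) (hf0 j) D (hfD j)
      have hcm0 : Measurable[m0] c := fun u hu => hle s _ (hcm hu)
      refine ⟨s, fun x => ‖f j x - c x‖, ((hf0 j).sub hcm0).norm, ⟨D + D, fun x => ?_⟩,
        fun x => norm_nonneg _, ?_, ?_⟩
      · rw [abs_norm]
        exact (norm_sub_le _ _).trans (add_le_add (hfD j x) (hcD x))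
      · filter_upwards [hce] with x hx
        rw [hx]
      · refine le_of_eq_of_le ?_ hs
        apply integral_congr_ae
        filter_upwards [hce] with x hx
        rw [hx]
    rcases hslot j hj with h | h | hu
    · exact hgen (Or.inl h)
    · exact hgen (Or.inr h)
    · intro ε hε
      obtain ⟨s, t, hs, _⟩ := hu ε hε
      refine ⟨s, ∅, by simp, ?_⟩
      have h1 : ∀ᵐ x ∂μ, ∀ n, ‖f j (γ j n • x) - μ[f j|𝒜 s] (γ j n • x)‖ ≤ ε := by
        rw [ae_all_iff]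
        intro n
        exact (hG (γ j n)).quasiMeasurePreserving.ae hs
      filter_upwards [h1] with x hx _
      refine Eventually.of_forall fun N => ?_
      rcases Nat.eq_zero_or_pos N with h0 | h0
      · subst h0; simpa using hε.le
      · have hN : (0 : ℝ) < N := by exact_mod_cast h0
        rw [inv_mul_le_iff₀ hN]
        calc _ ≤ ∑ _n ∈ range N, ε := Finset.sum_le_sum fun n _ => hx n
          _ = N * ε := by simp
  · -- going down
    intro j hj s c hcm0 hcD hce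
    have hgen : ((∃ S : G, ∀ n : ℤ, g j n = S ^ n) ∨
        (∀ v : X → ℝ, Measurable[m0] v → (∃ c : ℝ, ∀ x, |v x| ≤ c) → ∀ᵐ x ∂μ, ∃ L : ℝ,
        Tendsto (fun N : ℕ => (2 * (N : ℝ) + 1)⁻¹ *
          ∑ n ∈ Finset.Icc (-(N : ℤ)) N, v (g j n • x)) atTop (𝓝 L))) →
        Small μ (fun n x => γ j n • x) (fun t x => μ[c|𝒜 t] x - μ[c|⨅ t, 𝒜 t] x) := by
      intro hs
      apply small_gen hG (g j) (γ j) (hγ.imp (fun h => h j) (fun h => h j)) hs
      intro ε hε
      obtain ⟨t, ht⟩ := exists_level (μ := μ) 𝒜 hmono hle c hcm0 D hcD ε hε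
      obtain ⟨c1, hcm1, hcD1, hce1⟩ := exists_version (μ := μ) (𝒜 t) (hle t) c hcm0 D hcD
      obtain ⟨c2, hcm2, hcD2, hce2⟩ := exists_version (μ := μ) (⨅ t, 𝒜 t) hT c hcm0 D hcD
      have h1 : Measurable[m0] c1 := fun u hu => hle t _ (hcm1 hu)
      have h2 : Measurable[m0] c2 := fun u hu => hT _ (hcm2 hu)
      refine ⟨t, fun x => ‖c1 x - c2 x‖, (h1.sub h2).norm, ⟨D + D, fun x => ?_⟩,
        fun x => norm_nonneg _, ?_, ?_⟩
      · rw [abs_norm]
        exact (norm_sub_le _ _).trans (add_le_add (hcD1 x) (hcD2 x))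
      · filter_upwards [hce1, hce2] with x hx1 hx2
        rw [hx1, hx2]
      · refine le_of_eq_of_le ?_ ht
        apply integral_congr_ae
        filter_upwards [hce1, hce2] with x hx1 hx2
        rw [hx1, hx2]
    rcases hslot j hj with h | h | hu
    · exact hgen (Or.inl h)
    · exact hgen (Or.inr h)
    · apply small_uniform hG 𝒜 c (γ j)
      intro ε hε
      obtain ⟨_, t, _, ht⟩ := hu ε hε
      refine ⟨min t s, ?_⟩
      have e1 : μ[c|𝒜 (min t s)] =ᵐ[μ] μ[f j|𝒜 (min t s)] :=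
        (condExp_congr_ae hce).trans (condExp_condExp_of_le (hmono (min_le_right _ _)) (hle _))
      have e2 : μ[μ[f j|𝒜 t]|𝒜 (min t s)] =ᵐ[μ] μ[f j|𝒜 (min t s)] :=
        condExp_condExp_of_le (hmono (min_le_left _ _)) (hle _)
      have e3 : μ[c|⨅ t, 𝒜 t] =ᵐ[μ] μ[f j|⨅ t, 𝒜 t] :=
        (condExp_congr_ae hce).trans (condExp_condExp_of_le (iInf_le _ _) (hle _))
      have e4 : μ[μ[f j|⨅ t, 𝒜 t]|𝒜 (min t s)] = μ[f j|⨅ t, 𝒜 t] :=
        condExp_of_stronglyMeasurable (hle _)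
          (stronglyMeasurable_condExp.mono (iInf_le _ _)) integrable_condExp
      have e5 := condExp_sub (μ := μ) (f := μ[f j|𝒜 t]) (g := μ[f j|⨅ t, 𝒜 t])
        integrable_condExp integrable_condExp (𝒜 (min t s))
      have e6 : ∀ᵐ x ∂μ, μ[μ[f j|𝒜 t] - μ[f j|⨅ t, 𝒜 t]|𝒜 (min t s)] x ∈
          Metric.closedBall (0 : ℂ) ε :=
        Convex.condExp_mem (hle _) (integrable_condExp.sub integrable_condExp)
          Metric.isClosed_closedBall (convex_closedBall _ _) (by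
            filter_upwards [ht] with x hx
            simpa using hx)
      rw [e4] at e5
      filter_upwards [e1, e2, e3, e5, e6] with x h1 h2 h3 h5 h6
      rw [h5, Pi.sub_apply, h2, ← h1, ← h3] at h6
      simpa using h6
  · intro i hi j hj hij
    rw [hphi, hphi]
    rcases dichotomy _ (h2 i hi j hj hij) with h | h
    · left; exact inc_below _ _ h
    · right
      apply inc_below
      rw [neg_sub] at h
      exact h
  · intro a ha
    rcases dichotomy _ (h1 a ha) with h | h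
    · left
      intro K
      obtain ⟨C, hC⟩ := inc_gap _ h K
      refine ⟨C, fun n hn n' hn' => ?_⟩
      rw [hp, hp]
      exact hC n hn n' hn'
    · right
      intro K
      obtain ⟨C, hC⟩ := inc_gap _ h K
      refine ⟨C, fun n hn n' hn' => ?_⟩
      rw [hp, hp]
      have := hC n hn n' hn'
      rw [Polynomial.eval_neg, Polynomial.eval_neg] at this
      linarith

/-- **The remote past is characteristic for pointwise convergence.** -/
theorem result {X : Type*} {m0 : MeasurableSpace X} (μ : Measure X) [IsProbabilityMeasure μ]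
    {G : Type*} [Group G] [MulAction G X]
    (hG : ∀ g : G, MeasurePreserving (fun x : X => g • x) μ μ)
    (φ : G → ℝ) (hφ : ∀ g h : G, φ (g * h) = φ g + φ h)
    (𝒜 : ℝ → MeasurableSpace X) (hmono : Monotone 𝒜) (hle : ∀ t, 𝒜 t ≤ m0)
    (hcomap : ∀ (g : G) (t : ℝ), (𝒜 t).comap (fun x => g • x) ≤ 𝒜 (t + φ g))
    (d m : ℕ) (T : Fin d → G) (P : Fin d → Fin m → Polynomial ℤ) (g : Fin m → ℤ → G)
    (hg : ∀ j n, g j n = (List.ofFn fun i => T i ^ (P i j).eval n).prod)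
    (f : Fin m → X → ℂ) (hf : ∀ j, MemLp (f j) ∞ μ)
    (hfm : ∀ j, AEStronglyMeasurable[⨆ t, 𝒜 t] (f j) μ) (R : Set (Fin m))
    (htail : ∀ j, j ∉ R → AEStronglyMeasurable[⨅ t, 𝒜 t] (f j) μ)
    (h1 : ∀ j ∈ R, ∃ a b : ℤ, φ (g j a) ≠ φ (g j b))
    (h2 : ∀ i ∈ R, ∀ j ∈ R, i ≠ j → ∃ a b : ℤ, φ (g j a) - φ (g i a) ≠ φ (g j b) - φ (g i b))
    (hslot : ∀ j ∈ R, (∃ S : G, ∀ n : ℤ, g j n = S ^ n) ∨
      (∀ v : X → ℝ, Measurable v → (∃ c : ℝ, ∀ x, |v x| ≤ c) → ∀ᵐ x ∂μ, ∃ L : ℝ,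
        Tendsto (fun N : ℕ => (2 * (N : ℝ) + 1)⁻¹ *
          ∑ n ∈ Finset.Icc (-(N : ℤ)) N, v (g j n • x)) atTop (𝓝 L)) ∨
      (∀ ε : ℝ, 0 < ε → ∃ s t : ℝ, (∀ᵐ x ∂μ, ‖f j x - μ[f j|𝒜 s] x‖ ≤ ε) ∧
        ∀ᵐ x ∂μ, ‖μ[f j|𝒜 t] x - μ[f j|⨅ t, 𝒜 t] x‖ ≤ ε)) :
    (∀ᵐ x ∂μ, Tendsto (fun N : ℕ => (2 * (N : ℂ) + 1)⁻¹ * ∑ n ∈ Finset.Icc (-(N : ℤ)) N,
      (∏ j, f j (g j n • x) - ∏ j, μ[f j|⨅ t, 𝒜 t] (g j n • x))) atTop (𝓝 0)) ∧
    ((∀ s, MeasurableSet[⨅ t, 𝒜 t] s → μ s = 0 ∨ μ s = 1) →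
      ∀ᵐ x ∂μ, Tendsto (fun N : ℕ => (2 * (N : ℂ) + 1)⁻¹ * ∑ n ∈ Finset.Icc (-(N : ℤ)) N,
        ∏ j, f j (g j n • x)) atTop (𝓝 (∏ j, ∫ x, f j x ∂μ))) := by
  classical
  have hS : (⨆ t, 𝒜 t) ≤ m0 := iSup_le hle
  have hT : (⨅ t, 𝒜 t) ≤ m0 := (iInf_le _ 0).trans (hle 0)
  have hgel : ∀ j n, g j n = gel T P j n := hg
  set C : ℝ := 1 + ∑ j, (eLpNorm (f j) ∞ μ).toReal with hC
  have hC1 : 1 ≤ C := by
    have : 0 ≤ ∑ j, (eLpNorm (f j) ∞ μ).toReal :=
      Finset.sum_nonneg fun j _ => ENNReal.toReal_nonneg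
    linarith
  have hfC : ∀ j, ∀ᵐ x ∂μ, ‖f j x‖ ≤ C := by
    intro j
    have h2 := ae_le_eLpNormEssSup (f := f j) (μ := μ)
    filter_upwards [h2] with x hx
    rw [← eLpNorm_exponent_top] at hx
    have h3 := ENNReal.toReal_mono (hf j).eLpNorm_ne_top hx
    have h4 : (eLpNorm (f j) ∞ μ).toReal ≤ ∑ j, (eLpNorm (f j) ∞ μ).toReal :=
      Finset.single_le_sum (f := fun j => (eLpNorm (f j) ∞ μ).toReal)
        (fun j _ => ENNReal.toReal_nonneg) (Finset.mem_univ j)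
    have h5 : ‖f j x‖ ≤ (eLpNorm (f j) ∞ μ).toReal := by simpa using h3
    linarith
  -- bounded versions
  have hver : ∀ j, ∃ F : X → ℂ, Measurable[⨆ t, 𝒜 t] F ∧ (∀ x, ‖F x‖ ≤ C) ∧ F =ᵐ[μ] f j := by
    intro j
    set f0 := (hfm j).mk (f j) with hf0
    have hm : Measurable[⨆ t, 𝒜 t] f0 := (hfm j).stronglyMeasurable_mk.measurable
    have hset : MeasurableSet[⨆ t, 𝒜 t] {x | ‖f0 x‖ ≤ C} := by
      have h2 : MeasurableSet {z : ℂ | ‖z‖ ≤ C} :=
        (isClosed_le continuous_norm continuous_const).measurableSet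
      exact hm h2
    refine ⟨fun x => if ‖f0 x‖ ≤ C then f0 x else 0, Measurable.ite hset hm measurable_const,
      fun x => ?_, ?_⟩
    · by_cases h : ‖f0 x‖ ≤ C
      · simp only [h, if_true]
      · simp only [h, if_false, norm_zero]; linarith
    · filter_upwards [(hfm j).ae_eq_mk, hfC j] with x hx1 hx2
      rw [hx1] at hx2
      simp only [hf0, hx2, if_true]
      exact hx1.symm
  choose F hFm hFC hFf using hver
  have hFm0 : ∀ j, Measurable[m0] (F j) := fun j u hu => hS _ (hFm j hu)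
  choose e hem heC hee using fun j =>
    exists_version (μ := μ) (⨅ t, 𝒜 t) hT (F j) (hFm0 j) C (hFC j)
  have hcond : ∀ j (m' : MeasurableSpace X), μ[F j|m'] =ᵐ[μ] μ[f j|m'] := fun j m' =>
    condExp_congr_ae (hFf j)
  set R0 : Finset (Fin m) := univ.filter fun j => j ∈ R with hR0
  have hmem : ∀ j, j ∈ R0 ↔ j ∈ R := fun j => by rw [hR0, Finset.mem_filter]; simp
  have hout : ∀ j, j ∉ R0 → F j =ᵐ[μ] e j := by
    intro j hj
    rw [hmem] at hj
    have h3 : μ[f j|⨅ t, 𝒜 t] =ᵐ[μ] f j :=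
      condExp_of_aestronglyMeasurable' hT (htail j hj) ((hf j).integrable (by simp))
    exact (hFf j).trans (h3.symm.trans ((hcond j _).symm.trans (hee j).symm))
  have hslot' : ∀ j ∈ R0, (∃ S : G, ∀ n : ℤ, g j n = S ^ n) ∨
      (∀ v : X → ℝ, Measurable[m0] v → (∃ c : ℝ, ∀ x, |v x| ≤ c) → ∀ᵐ x ∂μ, ∃ L : ℝ,
        Tendsto (fun N : ℕ => (2 * (N : ℝ) + 1)⁻¹ *
          ∑ n ∈ Finset.Icc (-(N : ℤ)) N, v (g j n • x)) atTop (𝓝 L)) ∨
      (∀ ε : ℝ, 0 < ε → ∃ s t : ℝ, (∀ᵐ x ∂μ, ‖F j x - μ[F j|𝒜 s] x‖ ≤ ε) ∧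
        ∀ᵐ x ∂μ, ‖μ[F j|𝒜 t] x - μ[F j|⨅ t, 𝒜 t] x‖ ≤ ε) := by
    intro j hj
    refine (hslot j ((hmem j).1 hj)).imp id (Or.imp id ?_)
    intro h ε hε
    obtain ⟨s, t, h3, h4⟩ := h ε hε
    refine ⟨s, t, ?_, ?_⟩
    · filter_upwards [h3, hFf j, hcond j (𝒜 s)] with x h5 h6 h7
      rw [h6, h7]; exact h5
    · filter_upwards [h4, hcond j (𝒜 t), hcond j (⨅ t, 𝒜 t)] with x h5 h6 h7
      rw [h6, h7]; exact h5
  have hh : ∀ j (n : ℤ), φ (g j n) = (hpoly φ T P j).eval (n : ℝ) := by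
    intro j n
    rw [hgel]
    exact height φ hφ T P j n
  have hpos := one_sided μ hG φ hφ 𝒜 hmono hle hcomap g (fun j n => g j (n : ℤ))
    (Or.inl fun j n => rfl) (hpoly φ T P) (fun j n => by
      have := hh j (n : ℤ)
      rw [Int.cast_natCast] at this
      exact this) R0
    (fun j hj => by
      obtain ⟨a, b, hab⟩ := h1 j ((hmem j).1 hj)
      rw [hh, hh] at hab
      exact ⟨a, b, hab⟩)
    (fun i hi j hj hij => by
      obtain ⟨a, b, hab⟩ := h2 i ((hmem i).1 hi) j ((hmem j).1 hj) hij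
      rw [hh, hh, hh, hh] at hab
      refine ⟨a, b, ?_⟩
      rw [Polynomial.eval_sub, Polynomial.eval_sub]
      exact hab)
    F e C hC1 hFm hFC hem heC hee hout hslot'
  have hneg := one_sided μ hG φ hφ 𝒜 hmono hle hcomap g (fun j n => g j (-(n : ℤ)))
    (Or.inr fun j n => rfl) (fun j => (hpoly φ T P j).comp (-Polynomial.X)) (fun j n => by
      have := hh j (-(n : ℤ))
      push_cast at this
      rw [Polynomial.eval_comp]
      simpa using this) R0
    (fun j hj => by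
      obtain ⟨a, b, hab⟩ := h1 j ((hmem j).1 hj)
      rw [hh, hh] at hab
      refine ⟨-a, -b, ?_⟩
      rw [Polynomial.eval_comp, Polynomial.eval_comp]
      simpa using hab)
    (fun i hi j hj hij => by
      obtain ⟨a, b, hab⟩ := h2 i ((hmem i).1 hi) j ((hmem j).1 hj) hij
      rw [hh, hh, hh, hh] at hab
      refine ⟨-a, -b, ?_⟩
      rw [Polynomial.eval_sub, Polynomial.eval_sub, Polynomial.eval_comp, Polynomial.eval_comp,
        Polynomial.eval_comp, Polynomial.eval_comp]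
      simpa using hab)
    F e C hC1 hFm hFC hem heC hee hout hslot'
  have hall : ∀ᵐ x ∂μ, ∀ (j : Fin m) (n : ℤ), F j (g j n • x) = f j (g j n • x) ∧
      e j (g j n • x) = μ[f j|⨅ t, 𝒜 t] (g j n • x) := by
    rw [ae_all_iff]
    intro j
    rw [ae_all_iff]
    intro n
    have : ∀ᵐ y ∂μ, F j y = f j y ∧ e j y = μ[f j|⨅ t, 𝒜 t] y := by
      filter_upwards [hFf j, hee j, hcond j (⨅ t, 𝒜 t)] with y h3 h4 h5
      exact ⟨h3, h4.trans h5⟩
    exact (hG (g j n)).quasiMeasurePreserving.ae this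
  have hfirst : ∀ᵐ x ∂μ, Tendsto (fun N : ℕ => (2 * (N : ℂ) + 1)⁻¹ *
      ∑ n ∈ Finset.Icc (-(N : ℤ)) N,
      (∏ j, f j (g j n • x) - ∏ j, μ[f j|⨅ t, 𝒜 t] (g j n • x))) atTop (𝓝 0) := by
    filter_upwards [hpos, hneg, hall] with x hx1 hx2 hx3
    have h3 := two_sided (fun n : ℤ => ∏ j, F j (g j n • x) - ∏ j, e j (g j n • x)) 0 0 hx1 hx2
    rw [add_zero, zero_div] at h3
    refine h3.congr fun N => ?_
    push_cast
    congr 1
    apply Finset.sum_congr rfl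
    intro n _
    congr 1
    · exact Finset.prod_congr rfl fun j _ => (hx3 j n).1
    · exact Finset.prod_congr rfl fun j _ => (hx3 j n).2
  refine ⟨hfirst, fun htriv => ?_⟩
  have hconst : ∀ j, μ[f j|⨅ t, 𝒜 t] =ᵐ[μ] fun _ => ∫ x, f j x ∂μ := by
    intro j
    have hfi : Integrable (f j) μ := (hf j).integrable (by simp)
    symm
    apply ae_eq_condExp_of_forall_setIntegral_eq hT hfi
    · intro s _ _
      exact (integrable_const _).integrableOn
    · intro s hs _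
      rcases htriv s hs with h | h
      · rw [Measure.restrict_eq_zero.2 h]
        simp
      · have h3 : s =ᵐ[μ] Set.univ := by
          rw [ae_eq_univ]
          rw [prob_compl_eq_zero_iff (hT _ hs)]
          exact h
        rw [Measure.restrict_congr_set h3, Measure.restrict_univ]
        simp
    · exact (@stronglyMeasurable_const _ _ (⨅ t, 𝒜 t) _ _).aestronglyMeasurable
  have hall2 : ∀ᵐ x ∂μ, ∀ (j : Fin m) (n : ℤ), μ[f j|⨅ t, 𝒜 t] (g j n • x) = ∫ x, f j x ∂μ := by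
    rw [ae_all_iff]
    intro j
    rw [ae_all_iff]
    intro n
    exact (hG (g j n)).quasiMeasurePreserving.ae (hconst j)
  filter_upwards [hfirst, hall2] with x hx1 hx2
  have h3 := hx1.add_const (∏ j, ∫ x, f j x ∂μ)
  rw [zero_add] at h3
  refine h3.congr fun N => ?_
  have hne : (2 * (N : ℂ) + 1) ≠ 0 := by exact_mod_cast Nat.succ_ne_zero (2 * N)
  have h4 : ∑ n ∈ Finset.Icc (-(N : ℤ)) N,
      (∏ j, f j (g j n • x) - ∏ j, μ[f j|⨅ t, 𝒜 t] (g j n • x)) =
      ∑ n ∈ Finset.Icc (-(N : ℤ)) N, ∏ j, f j (g j n • x) -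
        (2 * (N : ℂ) + 1) * ∏ j, ∫ x, f j x ∂μ := by
    rw [Finset.sum_sub_distrib]
    congr 1
    have h5 : ∀ n ∈ Finset.Icc (-(N : ℤ)) N, ∏ j, μ[f j|⨅ t, 𝒜 t] (g j n • x) =
        ∏ j, ∫ x, f j x ∂μ := fun n _ => Finset.prod_congr rfl fun j _ => hx2 j n
    rw [Finset.sum_congr rfl h5, Finset.sum_const, Int.card_Icc, nsmul_eq_mul]
    congr 1
    have : ((N : ℤ) + 1 - -(N : ℤ)).toNat = 2 * N + 1 := by omega
    rw [this]
    push_cast
    ring
  rw [h4, mul_sub, inv_mul_cancel_left₀ hne, sub_add_cancel]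

end Pool.Agent.Results.MP_4d8f14_an.RemotePast
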