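import Pool.Agent.PWM.NilEnd
import Pool.Agent.NP2.Fin4
import Pool.Agent.M3.Main

set_option autoImplicit false

/-!
# Three functions along linear sequences: commuting maps and part of the nilpotent case

Almost everywhere convergence of `(2N+1)⁻¹ ∑_{|n| ≤ N} f(T^n x) g(S^n x) h(R^n x)` for arbitrary
bounded `f`, `g`, `h` and arbitrary commuting invertible measure preserving `T`, `S`, `R`; more
generally for three functions along linear sequences in a nilpotent group `G`, if the functions,
with the possible exception of one whose sequence consists of the powers of one map, are in the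
closed span `E` of the functions on which the commutator subgroup acts by an invariant character
(if the maps commute this is the set of all functions).

The proof.

* Finite theorem (`BinTh 3`, `Pool/Agent/M3`).  Objects `a`, `b`, `c` and `z = a + b + c + n`; for
  arbitrary functions `F(b,c,z)`, `G(a,c,z)`, `H(a,b,z)` bounded by one the averages over the dyadic
  windows of `n` move, outside a set of small measure, only a bounded number of times.
* Transference (`Pool/Agent/PWM`): from the finite theorem to commuting maps, and, since the phases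
  `e(α n a)` of the eigenfunctions of the commutator subgroup are functions of the faces, to
  eigenfunctions in nilpotent groups; closures slot by slot.
-/

open MeasureTheory
open scoped ENNReal

namespace Pool.Agent.Results.MP_4d8f14_an.ThreeMaps

/-- `h` is bounded and the commutator subgroup of `G` acts on `h` by a unimodular function `χ`
which is invariant under conjugation by `G`. -/
def EigFun {X : Type} [MeasurableSpace X] (μ : Measure X) (G : Subgroup (Equiv.Perm X))
    (h : X → ℂ) : Prop :=
  MemLp h ∞ μ ∧ ∃ χ : Equiv.Perm X → ℂ, (∀ ν ∈ ⁅G, G⁆, ‖χ ν‖ = 1) ∧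
    (∀ γ ∈ G, ∀ ν ∈ ⁅G, G⁆, χ (γ * ν * γ⁻¹) = χ ν) ∧
    ∀ ν ∈ ⁅G, G⁆, ∀ᵐ x ∂μ, h (ν x) = χ ν * h x

/-- `f` lies in the closure in `L²` of the finite sums of functions `h` with `EigFun μ G h`. -/
def InE {X : Type} [MeasurableSpace X] (μ : Measure X) (G : Subgroup (Equiv.Perm X))
    (f : X → ℂ) : Prop :=
  ∀ ε : ℝ, 0 < ε → ∃ (l : ℕ) (h : Fin l → X → ℂ), (∀ i, EigFun μ G (h i)) ∧
    eLpNorm (fun x => f x - ∑ i, h i x) 2 μ ≤ ENNReal.ofReal ε

theorem result :
    ∀ (X : Type) [MeasurableSpace X] (μ : Measure X) [IsProbabilityMeasure μ]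
      (d : ℕ) (T : Fin d → Equiv.Perm X),
      (∀ i, Measurable ⇑(T i).symm) →
      (∀ i, MeasurePreserving (⇑(T i)) μ μ) →
      Group.IsNilpotent (Subgroup.closure (Set.range T)) →
      ∀ (P : Fin d → Fin 3 → Polynomial ℤ), (∀ i j, (P i j).eval 0 = 0) →
      (∀ i j, (P i j).natDegree ≤ 1) →
      ∀ (f : Fin 3 → X → ℂ), (∀ j, MemLp (f j) ∞ μ) →
      (∃ j₀ : Fin 3, ∀ j, InE μ (Subgroup.closure (Set.range T)) (f j) ∨
        (j = j₀ ∧ ∃ V : Equiv.Perm X, ∀ n : ℤ,
          (List.ofFn fun l : Fin d => T l ^ (P l j).eval n).prod = V ^ n)) →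
      ∀ᵐ x ∂μ, ∃ L : ℂ, Filter.Tendsto
        (fun N : ℕ => ((2 * N + 1 : ℕ) : ℂ)⁻¹ *
          ∑ n ∈ Finset.Icc (-(N : ℤ)) (N : ℤ),
            ∏ j : Fin 3, f j ((List.ofFn fun i : Fin d => T i ^ (P i j).eval n).prod x))
        Filter.atTop (nhds L) := by
  intro X _ μ _ d T hs hT hnil P hP0 hP1 f hf hE
  exact Pool.PWM.nil_finalK 3 (by norm_num) Pool.M3.binTh3 X μ d T hs hT hnil P hP0 hP1 f hf hE

/-- If the maps commute, the last condition of `result` holds for all bounded functions. -/
theorem inE_of_commute {X : Type} [MeasurableSpace X] (μ : Measure X) {d : ℕ}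
    (T : Fin d → Equiv.Perm X) (hc : ∀ i i', Commute (T i) (T i'))
    (f : X → ℂ) (hf : MemLp f ∞ μ) : InE μ (Subgroup.closure (Set.range T)) f :=
  NP2.fin4_comm μ T hc 1 le_rfl f hf

end Pool.Agent.Results.MP_4d8f14_an.ThreeMaps
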