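import Pool.Agent.Erg4d.Orth

set_option autoImplicit false

/-!
# Multiple ergodic averages of toral automorphisms

Let `A_1, ..., A_m` be arbitrary integer matrices with integer inverses (no commutation relation is
assumed) acting on the torus `𝕋^k` with its Haar probability measure.  For bounded measurable
functions `f_1, ..., f_m` the averages `(2N+1)⁻¹ ∑_{|n| ≤ N} ∏_j f_j (A_j^n x)` converge for almost
every `x`.
-/

open MeasureTheory Filter Topology Finset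
open scoped ENNReal

namespace Pool.Agent.Results.MP_4d8f14_an.ToralAutomorphisms

/-- The automorphism `(x_i) ↦ (∑_l A_{il} x_l)` of the torus `(ℝ/ℤ)^k` given by an invertible
integer matrix `A`. -/
def toralAut {k : ℕ} (A : (Matrix (Fin k) (Fin k) ℤ)ˣ) : Equiv.Perm (Fin k → UnitAddCircle) where
  toFun x i := ∑ l, (A : Matrix (Fin k) (Fin k) ℤ) i l • x l
  invFun x i := ∑ l, ((A⁻¹ : (Matrix (Fin k) (Fin k) ℤ)ˣ) : Matrix (Fin k) (Fin k) ℤ) i l • x l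
  left_inv x := by
    have h := Erg4d.tor_mul ((A⁻¹ : (Matrix (Fin k) (Fin k) ℤ)ˣ) : Matrix (Fin k) (Fin k) ℤ)
      (A : Matrix (Fin k) (Fin k) ℤ) x
    rw [Units.inv_mul, Erg4d.tor_one] at h
    exact h.symm
  right_inv x := by
    have h := Erg4d.tor_mul (A : Matrix (Fin k) (Fin k) ℤ)
      ((A⁻¹ : (Matrix (Fin k) (Fin k) ℤ)ˣ) : Matrix (Fin k) (Fin k) ℤ) x
    rw [Units.mul_inv, Erg4d.tor_one] at h
    exact h.symm

lemma toralAut_zpow_natCast {k : ℕ} (A : (Matrix (Fin k) (Fin k) ℤ)ˣ) (n : ℕ)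
    (x : Fin k → UnitAddCircle) :
    (toralAut A ^ (n : ℤ)) x = (Erg4d.tor (A : Matrix (Fin k) (Fin k) ℤ))^[n] x := by
  rw [zpow_natCast, ← Equiv.Perm.iterate_eq_pow]
  rfl

lemma toralAut_zpow_neg {k : ℕ} (A : (Matrix (Fin k) (Fin k) ℤ)ˣ) (n : ℕ)
    (x : Fin k → UnitAddCircle) :
    (toralAut A ^ (-(n : ℤ))) x =
      (Erg4d.tor ((A⁻¹ : (Matrix (Fin k) (Fin k) ℤ)ˣ) : Matrix (Fin k) (Fin k) ℤ))^[n] x := by
  rw [zpow_neg, zpow_natCast, ← inv_pow, ← Equiv.Perm.iterate_eq_pow]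
  rfl

/-- **Main theorem.** -/
theorem result (k m : ℕ) (A : Fin m → (Matrix (Fin k) (Fin k) ℤ)ˣ)
    (f : Fin m → (Fin k → UnitAddCircle) → ℂ)
    (hf : ∀ j, MemLp (f j) ∞ (Measure.pi fun _ : Fin k => AddCircle.haarAddCircle)) :
    ∀ᵐ x ∂(Measure.pi fun _ : Fin k => (AddCircle.haarAddCircle : Measure UnitAddCircle)),
      ∃ L : ℂ, Tendsto
        (fun N : ℕ => ((2 * N + 1 : ℕ) : ℂ)⁻¹ *
          ∑ n ∈ Finset.Icc (-(N : ℤ)) (N : ℤ), ∏ j : Fin m, f j ((toralAut (A j) ^ n) x))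
        atTop (𝓝 L) := by
  have h1 := Erg4d.one_sided A f hf
  have h2 := Erg4d.one_sided (fun j => (A j)⁻¹) f hf
  filter_upwards [h1, h2] with x ⟨L1, hL1⟩ ⟨L2, hL2⟩
  refine ⟨(L1 + L2) / 2, ?_⟩
  apply Pool.Lib.Erg.two_sided (fun n : ℤ => ∏ j : Fin m, f j ((toralAut (A j) ^ n) x)) L1 L2
  · simp_rw [toralAut_zpow_natCast]
    exact hL1
  · simp_rw [toralAut_zpow_neg]
    exact hL2

end Pool.Agent.Results.MP_4d8f14_an.ToralAutomorphisms
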