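import Pool.Agent.NPG.EndF
import Pool.Agent.NPG.Mdl
import Pool.Agent.NPG.UAll
import Pool.Agent.NPG.ThA

set_option autoImplicit false

/-!
# Two functions along powers of two maps in a nilpotent group of any step

Almost everywhere convergence of `(2N+1)⁻¹ ∑_{|n| ≤ N} f(T^n x) g(S^n x)` for arbitrary bounded
`f`, `g` and arbitrary invertible measure preserving maps `T`, `S` which generate a nilpotent
group (of any step), and more generally for two functions along linear sequences `g_j` in a
nilpotent group `G` if for each `j`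

* `g_j(n) = V_j ^ n`, or
* `f_j` is in the closed span of the functions on which the commutator subgroup `⁅G, G⁆` acts by
  an invariant character (this holds for all bounded functions if `G` is commutative).

The proof (paper proof: notes 3378, 3425, 3426 of the team).

* Transference (`Pool/Agent/NPG/EndC`, `EndF`, `Mdl`).  `G` is replaced by finite quotients `A` of
  the group generated by `T` and `S`; objects `u` (orbits of `T`) and `v` (orbits of `S`), tied at
  time `c` if `v = th c * u`, `th c = S^(-c) T^c`.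
* Finite theorem (`ThmA`, `thm_A`).  For arbitrary functions `F(u,t)`, `G(v,t)` bounded by one the
  averages of `F(u,·) G(v,·)` over the dyadic blocks of `c` have, outside a set of small measure, a
  bounded number of jumps, uniformly in the number of scales, the finite group, `F` and `G`.
* Geometry of the finite quotients: weighted word lengths, bounded generation, volumes of balls
  (`GFrA`, `GConB`, `GConP`, `GSfr`, `GWl`, `GWlS`, `GGro`, `GGeo`, `GKd`, `GResF`, `GPig`).
* Kernels `∑ c_d b_d^* b_d` with Mertens type coefficients, gain of the averages along the curve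
  `th`, almost orthogonality (`OBox` to `OGai`, `UUni`, `UInp`, `UAll`); single scale inequality,
  walk lemma, square function and total identity for moving processes (`EAF` to `EMain`).
* A local clock and a Rademacher-Menshov argument in clock time (`Proc`, `Ker`, `Clk`, `Cnt`,
  `Win`, `Near`, `Far`, `Flux`, `Mir`, `FEnd`), ridge regression on greedy lists of functions
  (`Dic`, `Frz`, `Grd`, `Rem`), tensor powers (`KeyA` to `Key`, `ThA`).
* The case in which one of the functions is in the closed span of the eigenfunctions of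
  `⁅G, G⁆` is reduced to commuting maps (`Pool/Agent/NP2/Fin3`, `Pool/Agent/PWZ`).
-/

open MeasureTheory
open scoped ENNReal

namespace Pool.Agent.Results.MP_4d8f14_an.TwoMapsAnyStep

/-- `h` is bounded and the commutator subgroup `⁅G, G⁆` acts on `h` by a unimodular function `χ`
which is invariant under conjugation by `G`. -/
def EigFun {X : Type} [MeasurableSpace X] (μ : Measure X) (G : Subgroup (Equiv.Perm X))
    (h : X → ℂ) : Prop :=
  MemLp h ∞ μ ∧ ∃ χ : Equiv.Perm X → ℂ, (∀ ν ∈ ⁅G, G⁆, ‖χ ν‖ = 1) ∧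
    (∀ γ ∈ G, ∀ ν ∈ ⁅G, G⁆, χ (γ * ν * γ⁻¹) = χ ν) ∧
    ∀ ν ∈ ⁅G, G⁆, ∀ᵐ x ∂μ, h (ν x) = χ ν * h x

/-- `f` lies in the closure in `L²` of the finite sums of functions `h` with `EigFun μ G h`. -/
def InE {X : Type} [MeasurableSpace X] (μ : Measure X) (G : Subgroup (Equiv.Perm X))
    (f : X → ℂ) : Prop :=
  ∀ ε : ℝ, 0 < ε → ∃ (l : ℕ) (h : Fin l → X → ℂ), (∀ i, EigFun μ G (h i)) ∧
    eLpNorm (fun x => f x - ∑ i, h i x) 2 μ ≤ ENNReal.ofReal ε

theorem result :
    ∀ (X : Type) [MeasurableSpace X] (μ : Measure X) [IsProbabilityMeasure μ]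
      (d : ℕ) (T : Fin d → Equiv.Perm X),
      (∀ i, Measurable ⇑(T i).symm) →
      (∀ i, MeasurePreserving (⇑(T i)) μ μ) →
      Group.IsNilpotent (Subgroup.closure (Set.range T)) →
      ∀ (P : Fin d → Fin 2 → Polynomial ℤ), (∀ i j, (P i j).eval 0 = 0) →
      (∀ i j, (P i j).natDegree ≤ 1) →
      ∀ (f : Fin 2 → X → ℂ), (∀ j, MemLp (f j) ∞ μ) →
      (∀ j, InE μ (Subgroup.closure (Set.range T)) (f j) ∨
        ∃ V : Equiv.Perm X, ∀ n : ℤ,
          (List.ofFn fun l : Fin d => T l ^ (P l j).eval n).prod = V ^ n) →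
      ∀ᵐ x ∂μ, ∃ L : ℂ, Filter.Tendsto
        (fun N : ℕ => ((2 * N + 1 : ℕ) : ℂ)⁻¹ *
          ∑ n ∈ Finset.Icc (-(N : ℤ)) (N : ℤ),
            ∏ j : Fin 2, f j ((List.ofFn fun i : Fin d => T i ^ (P i j).eval n).prod x))
        Filter.atTop (nhds L) := by
  intro X _ μ _ d T hs hT hnil P hP0 hP1 f hf h1
  exact NPG.fin5 (NPG.modH NPG.inp_all) NPG.thm_A X μ d T hs hT hnil P hP0 hP1 f hf h1

/-- If the maps commute, every bounded function satisfies `InE`. -/
theorem inE_of_commute {X : Type} [MeasurableSpace X] (μ : Measure X) {d : ℕ}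
    (T : Fin d → Equiv.Perm X) (hc : ∀ i i', Commute (T i) (T i'))
    (f : X → ℂ) (hf : MemLp f ∞ μ) : InE μ (Subgroup.closure (Set.range T)) f :=
  NP2.fin4_comm μ T hc 1 le_rfl f hf

/-- The case of two powers. -/
theorem two_maps (X : Type) [MeasurableSpace X] (μ : Measure X) [IsProbabilityMeasure μ]
    (T S : Equiv.Perm X) (hT : Measurable ⇑T.symm) (hS : Measurable ⇑S.symm)
    (hTm : MeasurePreserving (⇑T) μ μ) (hSm : MeasurePreserving (⇑S) μ μ)
    (hnil : Group.IsNilpotent (Subgroup.closure {T, S}))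
    (f g : X → ℂ) (hf : MemLp f ∞ μ) (hg : MemLp g ∞ μ) :
    ∀ᵐ x ∂μ, ∃ L : ℂ, Filter.Tendsto
      (fun N : ℕ => ((2 * N + 1 : ℕ) : ℂ)⁻¹ *
        ∑ n ∈ Finset.Icc (-(N : ℤ)) (N : ℤ), f ((T ^ n) x) * g ((S ^ n) x))
      Filter.atTop (nhds L) := by
  have hr : Set.range ![T, S] = {T, S} := by
    rw [Matrix.range_cons, Matrix.range_cons, Matrix.range_empty, Set.union_empty]
    rfl
  have h := result X μ 2 ![T, S] (fun i => by fin_cases i <;> assumption)
    (fun i => by fin_cases i <;> assumption) (by rw [hr]; exact hnil)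
    ![![Polynomial.X, 0], ![0, Polynomial.X]]
    (fun i j => by fin_cases i <;> fin_cases j <;> simp)
    (fun i j => by fin_cases i <;> fin_cases j <;> simp)
    ![f, g] (fun j => by fin_cases j <;> assumption)
    (fun j => Or.inr ⟨![T, S] j, fun n => by fin_cases j <;> simp [List.ofFn_succ]⟩)
  filter_upwards [h] with x hx
  obtain ⟨L, hL⟩ := hx
  refine ⟨L, hL.congr fun N => ?_⟩
  congr 1
  refine Finset.sum_congr rfl fun n _ => ?_
  simp [Fin.prod_univ_two, List.ofFn_succ]

end Pool.Agent.Results.MP_4d8f14_an.TwoMapsAnyStep
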