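import Pool.Agent.NP2.ThA
import Pool.Agent.NP2.Fin4

set_option autoImplicit false

/-!
# Two functions along linear sequences in a nilpotent group

Almost everywhere convergence of `(2N+1)⁻¹ ∑_{|n| ≤ N} f(T^n x) g(S^n x)` for arbitrary bounded
`f`, `g` and arbitrary invertible measure preserving maps `T`, `S` which generate a nilpotent group
of step at most two (in particular for all commuting `T`, `S`), and more generally for two
functions along linear sequences `g_j` in a nilpotent group `G` of any step, if

* for each `j`, `g_j(n) = V_j ^ n`, or `f_j` is in the closed span of the functions on which the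
  commutator subgroup `G_2` acts by an invariant character, and
* one of `f_1`, `f_2` is in the closed span of the functions on which `G_3 = ⁅G_2, G⁆` acts by an
  invariant character (this is automatic if `G` has step at most two).

The proof.

* Finite theorem, nilpotent case (`Pool/Agent/NP2`, paper proof: note 3378 of the team).  Objects
  `u`, `v` of `(ZMod M)²`, times `c < 2^K`, tied pairs `v = u + (c, c(c-1)/2)`; for arbitrary
  functions `F(u,t)`, `G(v,t)` bounded by one the averages of `F(u,·) G(v,·)` over the dyadic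
  blocks of `c` have, outside a set of small measure, a bounded number of jumps, uniformly in `K`,
  `M`, `F`, `G` (`ThmA`, `thm_A`).
  Single scale estimates by Weyl sums and smoothing in the central direction (`Geo`, `Fej`, `Arc`,
  `Sing`), square function and total identity for moving processes (`SQ`, `TI`), a local clock and
  a Rademacher-Menshov argument in clock time (`Ker`, `Clk`, `Cnt`, `Win`, `Near`, `Far`, `Flux`),
  ridge regression on greedy lists of functions (`Rid`, `Dic`, `Frz`, `Grd`, `Rem`), tensor powers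
  (`Ten`, `KeyA`, `Key`).
* Transference (`EndA` to `EndC2`, `Tr3`), eigenfunctions and closures (`GrpE3`, `Clo3`, `Fin3`).
* The case of two sequences which need not be powers, for eigenfunctions of the commutator
  subgroup, is reduced to the commuting case (`Pool/Agent/PWZ`, paper proof: note 3219).
-/

open MeasureTheory
open scoped ENNReal

namespace Pool.Agent.Results.MP_4d8f14_an.TwoMapsNilpotent

/-- `h` is bounded and the `k`-th term of the lower central series of `G` (`k = 1`: the commutator
subgroup `⁅G, G⁆`, `k = 2`: `⁅⁅G, G⁆, G⁆`) acts on `h` by a unimodular function `χ` which is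
invariant under conjugation by `G`. -/
def EigFun {X : Type} [MeasurableSpace X] (μ : Measure X) (G : Subgroup (Equiv.Perm X)) (k : ℕ)
    (h : X → ℂ) : Prop :=
  MemLp h ∞ μ ∧ ∃ χ : Equiv.Perm X → ℂ, (∀ ν ∈ G.lowerCentralSeries k, ‖χ ν‖ = 1) ∧
    (∀ γ ∈ G, ∀ ν ∈ G.lowerCentralSeries k, χ (γ * ν * γ⁻¹) = χ ν) ∧
    ∀ ν ∈ G.lowerCentralSeries k, ∀ᵐ x ∂μ, h (ν x) = χ ν * h x

/-- `f` lies in the closure in `L²` of the finite sums of functions `h` with `EigFun μ G k h`. -/
def InE {X : Type} [MeasurableSpace X] (μ : Measure X) (G : Subgroup (Equiv.Perm X)) (k : ℕ)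
    (f : X → ℂ) : Prop :=
  ∀ ε : ℝ, 0 < ε → ∃ (l : ℕ) (h : Fin l → X → ℂ), (∀ i, EigFun μ G k (h i)) ∧
    eLpNorm (fun x => f x - ∑ i, h i x) 2 μ ≤ ENNReal.ofReal ε

theorem result :
    ∀ (X : Type) [MeasurableSpace X] (μ : Measure X) [IsProbabilityMeasure μ]
      (d : ℕ) (T : Fin d → Equiv.Perm X),
      (∀ i, Measurable ⇑(T i).symm) →
      (∀ i, MeasurePreserving (⇑(T i)) μ μ) →
      Group.IsNilpotent (Subgroup.closure (Set.range T)) →
      ∀ (P : Fin d → Fin 2 → Polynomial ℤ), (∀ i j, (P i j).eval 0 = 0) →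
      (∀ i j, (P i j).natDegree ≤ 1) →
      ∀ (f : Fin 2 → X → ℂ), (∀ j, MemLp (f j) ∞ μ) →
      (∀ j, InE μ (Subgroup.closure (Set.range T)) 1 (f j) ∨
        ∃ V : Equiv.Perm X, ∀ n : ℤ,
          (List.ofFn fun l : Fin d => T l ^ (P l j).eval n).prod = V ^ n) →
      (∃ j, InE μ (Subgroup.closure (Set.range T)) 2 (f j)) →
      ∀ᵐ x ∂μ, ∃ L : ℂ, Filter.Tendsto
        (fun N : ℕ => ((2 * N + 1 : ℕ) : ℂ)⁻¹ *
          ∑ n ∈ Finset.Icc (-(N : ℤ)) (N : ℤ),
            ∏ j : Fin 2, f j ((List.ofFn fun i : Fin d => T i ^ (P i j).eval n).prod x))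
        Filter.atTop (nhds L) := by
  intro X _ μ _ d T hs hT hnil P hP0 hP1 f hf h1 h2
  exact NP2.fin4 NP2.thm_A X μ d T hs hT hnil P hP0 hP1 f hf h1 h2

/-- If `G` has step at most two, the second condition of `result` holds for all bounded
functions. -/
theorem inE_of_step_two {X : Type} [MeasurableSpace X] (μ : Measure X)
    (G : Subgroup (Equiv.Perm X)) (hG : G.lowerCentralSeries 2 = ⊥) (f : X → ℂ)
    (hf : MemLp f ∞ μ) : InE μ G 2 f :=
  NP2.InEK_of_bot hG f hf

/-- If the maps commute, both conditions of `result` hold for all bounded functions. -/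
theorem inE_of_commute {X : Type} [MeasurableSpace X] (μ : Measure X) {d : ℕ}
    (T : Fin d → Equiv.Perm X) (hc : ∀ i i', Commute (T i) (T i')) (k : ℕ) (hk : 1 ≤ k)
    (f : X → ℂ) (hf : MemLp f ∞ μ) : InE μ (Subgroup.closure (Set.range T)) k f :=
  NP2.fin4_comm μ T hc k hk f hf

end Pool.Agent.Results.MP_4d8f14_an.TwoMapsNilpotent
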